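import Pool.Agent.H.MP_5be563_lc.VST.Core

/-!
The value of the recursion at the root is the optimum.
-/

set_option linter.unusedSectionVars false

namespace Pool.Agent.H.MP_5be563_lc.VST

variable {V : Type*} [DecidableEq V]

/-- The optimum cost of the non-terminals, computed by the recursion from the terminal `u0`. -/
noncomputable def optTop (G : SimpleGraph V) (W U : Finset V) (w : V → ℕ)
    (Ts Tt : List (List V)) (t : ℕ) (u0 : V) : ℕ∞ :=
  ∑ K ∈ comps G (W \ nb G W {u0}), optF G W U w Ts Tt t {u0} K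

variable {G : SimpleGraph V} {W U : Finset V} {w : V → ℕ} {Ts Tt : List (List V)}

theorem optTop_sound (hGW : ∀ a b, G.Adj a b → b ∈ W) (hUW : U ⊆ W) (t : ℕ) (u0 : V)
    (hu0 : u0 ∈ U) (h : optTop G W U w Ts Tt t u0 ≠ ⊤) :
    ∃ R : Finset V, R ⊆ W ∧ Disjoint R U ∧ (∀ z ∈ U ∪ R, RI G (U ∪ R) u0 z) ∧
      ((∑ v ∈ R, w v : ℕ) : ℕ∞) ≤ optTop G W U w Ts Tt t u0 := by
  classical
  unfold optTop at h ⊢
  set B := W \ nb G W {u0} with hB
  have hsum := sum_ne_top h
  have hex : ∀ K' ∈ comps G B, ∃ Z : Finset V, Conn G {u0} Z ∧ U ∩ K' ⊆ Z ∧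
      ((∑ v ∈ (Z \ {u0}) \ U, w v : ℕ) : ℕ∞) ≤ optF G W U w Ts Tt t {u0} K' :=
    fun K' hK' => optF_sound t {u0} K' ((comps_subset hK').trans Finset.sdiff_subset)
      (hsum K' hK')
  choose! f hf1 hf2 hf3 using hex
  have hg := glue (G := G) (W := W) (U := U) (w := w) {u0} ∅ (comps G B) U f
    (by simp) (by simpa using hf1) (by
      intro u hu
      by_cases h1 : u ∈ nb G W {u0}
      · left; simpa using h1
      · right
        have h2 : u ∈ B := by rw [hB, Finset.mem_sdiff]; exact ⟨hUW hu, h1⟩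
        exact ⟨comp G B u, comp_mem_comps h2, hf2 _ (comp_mem_comps h2)
          (Finset.mem_inter.2 ⟨hu, mem_comp_self h2⟩)⟩)
  simp only [Finset.empty_union, Finset.empty_sdiff, Finset.sum_empty, zero_add,
    Finset.union_idempotent, Finset.union_empty] at hg
  set Z := U ∪ (comps G B).biUnion f with hZ
  have hUR : U ∪ (Z \ U) = Z := by
    rw [Finset.union_sdiff_self_eq_union, hZ]
    ext x; simp
  have hu0Z : {u0} ∪ Z = Z := by
    ext x; simp only [Finset.mem_union, Finset.mem_singleton, hZ]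
    constructor
    · rintro (rfl | h)
      · exact Or.inl hu0
      · exact h
    · exact Or.inr
  refine ⟨Z \ U, ?_, Finset.sdiff_disjoint, ?_, ?_⟩
  · intro z hz
    obtain ⟨p, hp, h1⟩ := hg.1 z (Finset.mem_sdiff.1 hz).1
    rw [Finset.mem_singleton] at hp
    subst hp
    rcases Relation.ReflTransGen.cases_tail h1 with rfl | ⟨y, _, hy⟩
    · exact hUW hu0
    · exact hGW y z hy.1
  · rw [hUR]
    intro z hz
    obtain ⟨p, hp, h1⟩ := hg.1 z hz
    rw [Finset.mem_singleton] at hp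
    subst hp
    rwa [hu0Z] at h1
  · have e : (Z \ {u0}) \ U = Z \ U := by
      ext x
      simp only [Finset.mem_sdiff, Finset.mem_singleton]
      constructor
      · rintro ⟨⟨h1, _⟩, h2⟩; exact ⟨h1, h2⟩
      · rintro ⟨h1, h2⟩
        exact ⟨⟨h1, by rintro rfl; exact h2 hu0⟩, h2⟩
    rw [e] at hg
    calc ((∑ v ∈ Z \ U, w v : ℕ) : ℕ∞) ≤
          ((∑ K ∈ comps G B, ∑ v ∈ (f K \ {u0}) \ U, w v : ℕ) : ℕ∞) := by
          exact_mod_cast hg.2
      _ = ∑ K ∈ comps G B, ((∑ v ∈ (f K \ {u0}) \ U, w v : ℕ) : ℕ∞) := by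
          push_cast; rfl
      _ ≤ _ := by
          gcongr with K hK
          exact hf3 K hK

theorem optTop_complete (hG : ClawFree G) (t : ℕ) (hPt : ∀ p : ℕ → V, ¬ IndP G p t)
    (hTs : ∀ S : List V, S.length = t * (2 * t) → (∀ s ∈ S, s ∈ W) → S ∈ Ts)
    (hTt : ∀ Q : List V, Q.length = t → (∀ s ∈ Q, s ∈ W) → Q ∈ Tt)
    (hUW : U ⊆ W) (u0 : V) (hu0 : u0 ∈ U) (R : Finset V) (hRW : R ⊆ W)
    (hconn : ∀ z ∈ U ∪ R, RI G (U ∪ R) u0 z) :
    optTop G W U w Ts Tt t u0 ≤ ((∑ v ∈ R, w v : ℕ) : ℕ∞) := by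
  classical
  unfold optTop
  set B := W \ nb G W {u0} with hB
  have hu0R : {u0} ∪ (U ∪ R) = U ∪ R := by
    ext x; simp only [Finset.mem_union, Finset.mem_singleton]
    constructor
    · rintro (rfl | h)
      · exact Or.inl hu0
      · exact h
    · exact Or.inr
  have hZW : U ∪ R ⊆ W := Finset.union_subset hUW hRW
  obtain ⟨f, hf, hdisj⟩ := split (W := W) hG {u0} (U ∪ R) B
    (Finset.singleton_subset_iff.2 (hUW hu0)) hZW Finset.sdiff_subset (by
      intro z hz
      refine ⟨u0, by simp, ?_⟩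
      rw [hu0R]
      exact hconn z hz) (by
      intro x hx
      rw [hB, Finset.mem_sdiff] at hx
      exact hx.2) (by
      intro z hz hz'
      rw [hB, Finset.mem_sdiff]
      exact ⟨hZW hz, hz'⟩)
  have hsub : ∀ K' ∈ comps G B, optF G W U w Ts Tt t {u0} K' ≤
      ((∑ v ∈ f K' \ U, w v : ℕ) : ℕ∞) := by
    intro K' hK'
    obtain ⟨h1, h2, h3, h4⟩ := hf K' hK'
    have hK'B := comps_subset hK'
    refine optF_complete hG t hPt hTs hTt t {u0} K' (f K')
      (Finset.singleton_subset_iff.2 (hUW hu0)) (hK'B.trans Finset.sdiff_subset)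
      (fun x hx => hZW ((Finset.mem_sdiff.1 (h2 hx)).1)) (by simp) ?_ ?_ h1 ?_ h4 ?_
    · intro x hx
      have := hK'B hx
      rw [hB, Finset.mem_sdiff] at this
      exact this.2
    · intro x hx y hy
      exact comps_connected hK' hx hy
    · intro u hu
      rw [Finset.mem_inter] at hu
      exact h3 (Finset.mem_inter.2 ⟨Finset.mem_union_left _ hu.1, hu.2⟩)
    · intro p hp
      exact absurd (hp.mono (by omega)) (hPt p)
  calc ∑ K' ∈ comps G B, optF G W U w Ts Tt t {u0} K'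
      ≤ ∑ K' ∈ comps G B, ((∑ v ∈ f K' \ U, w v : ℕ) : ℕ∞) := by
        gcongr with K' hK'
        exact hsub K' hK'
    _ = ((∑ K' ∈ comps G B, ∑ v ∈ f K' \ U, w v : ℕ) : ℕ∞) := by
        push_cast; rfl
    _ ≤ _ := by
        have h1 : ∑ K' ∈ comps G B, ∑ v ∈ f K' \ U, w v =
            ∑ v ∈ (comps G B).biUnion (fun K' => f K' \ U), w v := by
          rw [Finset.sum_biUnion]
          intro K₁ h₁ K₂ h₂ hne
          exact (hdisj h₁ h₂ hne).mono Finset.sdiff_subset Finset.sdiff_subset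
        rw [h1]
        have h2 : (comps G B).biUnion (fun K' => f K' \ U) ⊆ R := by
          intro x hx
          rw [Finset.mem_biUnion] at hx
          obtain ⟨K', hK', h⟩ := hx
          rw [Finset.mem_sdiff] at h
          have h3 := (Finset.mem_sdiff.1 ((hf K' hK').2.1 h.1)).1
          rcases Finset.mem_union.1 h3 with h4 | h4
          · exact absurd h4 h.2
          · exact h4
        exact_mod_cast Finset.sum_le_sum_of_subset h2

end Pool.Agent.H.MP_5be563_lc.VST
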