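import Pool.Agent.H.MP_5be563_lc.PT.Arith
import Pool.Agent.H.MP_5be563_lc.VST.Top

/-!
The algorithm on lists: definition and polynomial running time.
-/

set_option linter.unusedSectionVars false

namespace Pool.Agent.H.MP_5be563_lc.VST

open PT

/-! ### Graph primitives -/

/-- adjacency-matrix lookup -/
def adjL (M : List (List Bool)) (i j : ℕ) : Bool := (M.getD i []).getD j false

/-- closed neighbourhood -/
def nbL (M : List (List Bool)) (P : List ℕ) : List ℕ :=
  (List.range M.length).filter (fun x => memb x P || P.any (fun p => adjL M p x))

/-- one round of reachability inside `B` -/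
def stepR (M : List (List Bool)) (B R : List ℕ) : List ℕ :=
  B.filter (fun x => memb x R || R.any (fun y => adjL M y x))

/-- vertices of `B` reachable from `s` inside `B` -/
def reachL (M : List (List Bool)) (B s : List ℕ) : List ℕ :=
  (stepR M B)^[B.length] s

/-- components of `B` -/
def compsL (M : List (List Bool)) (B : List ℕ) : List (List ℕ) :=
  (B.filter (fun v => (reachL M B [v]).headD 0 == v)).map (fun v => reachL M B [v])

/-- all lists of length `k` with entries in `l` -/
def tuples (l : List ℕ) : ℕ → List (List ℕ)
  | 0 => [[]]
  | k + 1 => l.flatMap (fun x => (tuples l k).map (fun y => x :: y))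

theorem mem_tuples (l : List ℕ) (k : ℕ) (y : List ℕ) :
    y ∈ tuples l k ↔ y.length = k ∧ ∀ x ∈ y, x ∈ l := by
  induction k generalizing y with
  | zero =>
    simp only [tuples, List.mem_singleton, List.length_eq_zero_iff]
    constructor
    · rintro rfl; simp
    · exact fun h => h.1
  | succ k ih =>
    simp only [tuples, List.mem_flatMap, List.mem_map, ih]
    constructor
    · rintro ⟨x, hx, z, ⟨hz, hzl⟩, rfl⟩
      simp [hz, hx]
      exact hzl
    · rintro ⟨h1, h2⟩
      cases y with
      | nil => simp at h1
      | cons x z =>
        exact ⟨x, h2 x (by simp), z, ⟨by simpa using h1, fun a ha => h2 a (by simp [ha])⟩, rfl⟩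

section poly

variable {α : Type} [Enc α]

@[fun_prop]
theorem Poly.adjL {M : α → List (List Bool)} {i j : α → ℕ} (hM : Poly M) (hi : Poly i)
    (hj : Poly j) : Poly (fun a => adjL (M a) (i a) (j a)) := by
  unfold VST.adjL
  fun_prop

@[fun_prop]
theorem Poly.nbL {M : α → List (List Bool)} {P : α → List ℕ} (hM : Poly M) (hP : Poly P) :
    Poly (fun a => nbL (M a) (P a)) := by
  unfold VST.nbL
  fun_prop

@[fun_prop]
theorem Poly.stepR {M : α → List (List Bool)} {B R : α → List ℕ} (hM : Poly M) (hB : Poly B)
    (hR : Poly R) : Poly (fun a => stepR (M a) (B a) (R a)) := by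
  unfold VST.stepR
  fun_prop

theorem iterate_stepR (M : List (List Bool)) (B s : List ℕ) (k : ℕ) :
    (VST.stepR M B)^[k + 1] s = B.filter (fun x => memb x ((VST.stepR M B)^[k] s) ||
      ((VST.stepR M B)^[k] s).any (fun y => VST.adjL M y x)) := by
  rw [Function.iterate_succ_apply']
  rfl

@[fun_prop]
theorem Poly.reachL {M : α → List (List Bool)} {B s : α → List ℕ} (hM : Poly M) (hB : Poly B)
    (hs : Poly s) : Poly (fun a => reachL (M a) (B a) (s a)) := by
  have := Poly.iterate (f := fun (a : α) (R : List ℕ) => VST.stepR (M a) (B a) R) (s := s)
    (n := fun a => (B a).length) (B := fun a => sz (s a) + sz (B a)) (by fun_prop) hs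
    (by fun_prop) (hs.sz_le.add hB.sz_le) (by
      intro a k _
      cases k with
      | zero => simp
      | succ k =>
        have h1 := iterate_stepR (M a) (B a) (s a) k
        have h2 : sz ((VST.stepR (M a) (B a))^[k + 1] (s a)) ≤ sz (B a) := by
          rw [h1]; exact sz_sublist_le List.filter_sublist
        exact h2.trans (by omega))
  exact this

@[fun_prop]
theorem Poly.compsL {M : α → List (List Bool)} {B : α → List ℕ} (hM : Poly M) (hB : Poly B) :
    Poly (fun a => compsL (M a) (B a)) := by
  unfold VST.compsL
  fun_prop

@[fun_prop]
theorem Poly.tuples (k : ℕ) {l : α → List ℕ} (hl : Poly l) :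
    Poly (fun a => tuples (l a) k) := by
  induction k with
  | zero => exact PT.Poly.const _
  | succ k ih =>
    exact PT.Poly.flatMap (f := fun a x => (VST.tuples (l a) k).map (fun y => x :: y))
      (PT.Poly.map (f := fun (p : α × ℕ) (y : List ℕ) => p.2 :: y) (by fun_prop)
        (PT.Poly.comp (f := fun a => VST.tuples (l a) k) (g := fun p : α × ℕ => p.1) ih
          (by fun_prop))) hl

end poly

/-! ### Costs -/

/-- addition of costs, `none` being infinite -/
def oadd (a b : Option (List Bool)) : Option (List Bool) :=
  a.bind (fun x => b.map (fun y => badd x y))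

/-- sum of costs -/
def osum (l : List (Option (List Bool))) : Option (List Bool) :=
  if l.all (fun o => o.isSome) = true then some (bsum (l.map (fun o => o.getD []))) else none

/-- minimum of two costs -/
def omin (a b : Option (List Bool)) : Option (List Bool) :=
  a.elim b (fun x => b.elim (some x) (fun y => if ble x y = true then some x else some y))

/-- minimum of a list of costs -/
def ominL (l : List (Option (List Bool))) : Option (List Bool) := l.foldr omin none

/-- value of a cost -/
def oval : Option (List Bool) → ℕ∞
  | none => ⊤
  | some l => (bval l : ℕ∞)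

@[simp] theorem oval_none : oval none = ⊤ := rfl
@[simp] theorem oval_some (l : List Bool) : oval (some l) = (bval l : ℕ∞) := rfl

theorem oval_oadd (a b : Option (List Bool)) : oval (oadd a b) = oval a + oval b := by
  cases a <;> cases b <;> simp [oadd, bval_badd]

theorem oval_osum (l : List (Option (List Bool))) : oval (osum l) = (l.map oval).sum := by
  unfold osum
  by_cases h : l.all (fun o => o.isSome) = true
  · rw [if_pos h, oval_some, bval_bsum]
    rw [List.all_eq_true] at h
    induction l with
    | nil => simp
    | cons a l ih =>
      have h1 := h a (by simp)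
      have h2 := ih (fun x hx => h x (by simp [hx]))
      cases a with
      | none => simp at h1
      | some a =>
        simp only [List.map_cons, List.sum_cons, Nat.cast_add, h2, oval_some, Option.getD_some]
  · rw [if_neg h, oval_none]
    rw [List.all_eq_true] at h
    push Not at h
    obtain ⟨x, hx, hx'⟩ := h
    have : x = none := by cases x <;> simp_all
    subst this
    symm
    have hmem : (⊤ : ℕ∞) ∈ l.map oval := List.mem_map.2 ⟨none, hx, rfl⟩
    exact top_le_iff.1 (List.le_sum_of_mem hmem)

theorem oval_omin (a b : Option (List Bool)) : oval (omin a b) = min (oval a) (oval b) := by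
  cases a with
  | none => simp [omin]
  | some x =>
    cases b with
    | none => simp [omin]
    | some y =>
      simp only [omin, oval_some, Option.elim]
      by_cases h : ble x y = true
      · rw [if_pos h, oval_some, min_eq_left]
        exact_mod_cast (ble_iff x y).1 h
      · rw [if_neg h, oval_some, min_eq_right]
        rw [ble_iff] at h
        push Not at h
        exact_mod_cast h.le

theorem oval_ominL (l : List (Option (List Bool))) :
    oval (ominL l) = (l.map oval).foldr min ⊤ := by
  induction l with
  | nil => rfl
  | cons a l ih =>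
    have : ominL (a :: l) = omin a (ominL l) := rfl
    rw [this, oval_omin, ih]; rfl

theorem ominL_mem (l : List (Option (List Bool))) : ominL l = none ∨ ominL l ∈ l := by
  induction l with
  | nil => exact Or.inl rfl
  | cons a l ih =>
    have h : ominL (a :: l) = omin a (ominL l) := rfl
    rw [h]
    cases a with
    | none =>
      simp only [omin, Option.elim]
      rcases ih with h | h
      · exact Or.inl h
      · exact Or.inr (by simp [h])
    | some x =>
      rcases ih with h | h
      · rw [h]; right; simp [omin]
      · right
        cases h2 : ominL l with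
        | none => simp [omin]
        | some y =>
          simp only [omin, Option.elim]
          by_cases h3 : ble x y = true
          · rw [if_pos h3]; simp
          · rw [if_neg h3, ← h2]; simp [h]

section poly

variable {α : Type} [Enc α]

@[fun_prop]
theorem Poly.oadd {f g : α → Option (List Bool)} (hf : Poly f) (hg : Poly g) :
    Poly (fun a => oadd (f a) (g a)) := by
  unfold VST.oadd
  fun_prop

@[fun_prop]
theorem Poly.osum {l : α → List (Option (List Bool))} (hl : Poly l) :
    Poly (fun a => osum (l a)) := by
  unfold VST.osum
  fun_prop

@[fun_prop]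
theorem Poly.omin {f g : α → Option (List Bool)} (hf : Poly f) (hg : Poly g) :
    Poly (fun a => omin (f a) (g a)) := by
  unfold VST.omin
  fun_prop

@[fun_prop]
theorem Poly.ominL {l : α → List (Option (List Bool))} (hl : Poly l) :
    Poly (fun a => ominL (l a)) := by
  have := Poly.foldr (f := fun p : α × Option (List Bool) × Option (List Bool) =>
      VST.omin p.2.2 p.2.1) (l := l)
    (s0 := fun _ => none) (B := fun a => sz (l a)) (by fun_prop) hl (by fun_prop) hl.sz_le (by
      intro a l₁ l₂ h
      change sz (VST.ominL l₂) ≤ _
      have h3 : sz l₂ ≤ sz (l a) := by rw [h]; exact sz_sublist_le (List.sublist_append_right _ _)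
      rcases ominL_mem l₂ with h1 | h1
      · rw [h1]
        have := sz_pos (l a)
        simpa using this
      · exact (sz_mem_lt h1).le.trans h3)
  exact this

end poly

/-! ### The recursion on lists -/

/-- context: adjacency matrix, terminal flags, weights -/
abbrev Ctx := List (List Bool) × List Bool × List (List Bool)

/-- cost of the new non-terminals in `S` -/
def costL (c : Ctx) (P S : List ℕ) : List Bool :=
  bsum (((List.range c.1.length).filter (fun x => memb x S && !(memb x P) &&
    !(c.2.1.getD x false))).map (fun x => c.2.2.getD x []))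

/-- union inside the vertex set -/
def unionL (c : Ctx) (P S : List ℕ) : List ℕ :=
  (List.range c.1.length).filter (fun x => memb x P || memb x S)

/-- test of a guess -/
def goodL (c : Ctx) (P K S Q : List ℕ) : Bool :=
  (S.all (fun x => memb x (reachL c.1 (unionL c P S) P))) &&
  (K.all (fun u => !(c.2.1.getD u false) || !(memb u (nbL c.1 Q)) ||
    memb u (nbL c.1 (unionL c P S))))

/-- what remains -/
def restL (c : Ctx) (P K S Q : List ℕ) : List ℕ :=
  K.filter (fun x => !(memb x (nbL c.1 Q)) && !(memb x (nbL c.1 (unionL c P S))))

/-- The recursion. -/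
def optL (s t : ℕ) : ℕ → Ctx → List ℕ → List ℕ → Option (List Bool)
  | 0, c, _, K => if K.any (fun u => c.2.1.getD u false) = true then none else some []
  | d + 1, c, P, K => if K.any (fun u => c.2.1.getD u false) = true then
      ominL ((tuples (List.range c.1.length) s).flatMap (fun S =>
        (tuples (List.range c.1.length) t).map (fun Q =>
          if goodL c P K S Q = true then
            oadd (some (costL c P S))
              (osum ((compsL c.1 (restL c P K S Q)).map (fun K' =>
                optL s t d c (unionL c P S) K')))
          else none)))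
      else some []

section poly

variable {α : Type} [Enc α]

@[fun_prop]
theorem Poly.costL {c : α → Ctx} {P S : α → List ℕ} (hc : Poly c) (hP : Poly P) (hS : Poly S) :
    Poly (fun a => costL (c a) (P a) (S a)) := by
  unfold VST.costL
  fun_prop

@[fun_prop]
theorem Poly.unionL {c : α → Ctx} {P S : α → List ℕ} (hc : Poly c) (hP : Poly P) (hS : Poly S) :
    Poly (fun a => unionL (c a) (P a) (S a)) := by
  unfold VST.unionL
  fun_prop

@[fun_prop]
theorem Poly.goodL {c : α → Ctx} {P K S Q : α → List ℕ} (hc : Poly c) (hP : Poly P)
    (hK : Poly K) (hS : Poly S) (hQ : Poly Q) :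
    Poly (fun a => goodL (c a) (P a) (K a) (S a) (Q a)) := by
  unfold VST.goodL
  fun_prop

@[fun_prop]
theorem Poly.restL {c : α → Ctx} {P K S Q : α → List ℕ} (hc : Poly c) (hP : Poly P)
    (hK : Poly K) (hS : Poly S) (hQ : Poly Q) :
    Poly (fun a => restL (c a) (P a) (K a) (S a) (Q a)) := by
  unfold VST.restL
  fun_prop

theorem Poly.optL (s t d : ℕ) : ∀ {α : Type} [Enc α] {c : α → Ctx} {P K : α → List ℕ}
    (_ : Poly c) (_ : Poly P) (_ : Poly K), Poly (fun a => optL s t d (c a) (P a) (K a)) := by
  induction d with
  | zero =>
    intro α _ c P K hc hP hK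
    unfold VST.optL
    fun_prop
  | succ d ih =>
    intro α _ c P K hc hP hK
    unfold VST.optL
    have h0 : Poly (fun p : ((α × List ℕ) × List ℕ) × List ℕ =>
        VST.optL s t d (c p.1.1.1) (VST.unionL (c p.1.1.1) (P p.1.1.1) p.1.1.2) p.2) :=
      ih (by fun_prop) (by fun_prop) (by fun_prop)
    have h1 : Poly (fun p : (α × List ℕ) × List ℕ =>
        if VST.goodL (c p.1.1) (P p.1.1) (K p.1.1) p.1.2 p.2 = true then
            VST.oadd (some (VST.costL (c p.1.1) (P p.1.1) p.1.2))
              (VST.osum ((VST.compsL (c p.1.1).1
                (VST.restL (c p.1.1) (P p.1.1) (K p.1.1) p.1.2 p.2)).map (fun K' =>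
                VST.optL s t d (c p.1.1) (VST.unionL (c p.1.1) (P p.1.1) p.1.2) K')))
          else none) := by
      have h2 : Poly (fun p : (α × List ℕ) × List ℕ => ((VST.compsL (c p.1.1).1
          (VST.restL (c p.1.1) (P p.1.1) (K p.1.1) p.1.2 p.2)).map (fun K' =>
          VST.optL s t d (c p.1.1) (VST.unionL (c p.1.1) (P p.1.1) p.1.2) K'))) :=
        PT.Poly.map (f := fun (p : (α × List ℕ) × List ℕ) (K' : List ℕ) =>
          VST.optL s t d (c p.1.1) (VST.unionL (c p.1.1) (P p.1.1) p.1.2) K') h0 (by fun_prop)
      fun_prop
    have h3 : Poly (fun a => (VST.tuples (List.range (c a).1.length) s).flatMap (fun S =>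
        (VST.tuples (List.range (c a).1.length) t).map (fun Q =>
          if VST.goodL (c a) (P a) (K a) S Q = true then
            VST.oadd (some (VST.costL (c a) (P a) S))
              (VST.osum ((VST.compsL (c a).1 (VST.restL (c a) (P a) (K a) S Q)).map (fun K' =>
                VST.optL s t d (c a) (VST.unionL (c a) (P a) S) K')))
          else none))) := by
      refine PT.Poly.flatMap (f := fun a S => (VST.tuples (List.range (c a).1.length) t).map
        (fun Q =>
          if VST.goodL (c a) (P a) (K a) S Q = true then
            VST.oadd (some (VST.costL (c a) (P a) S))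
              (VST.osum ((VST.compsL (c a).1 (VST.restL (c a) (P a) (K a) S Q)).map (fun K' =>
                VST.optL s t d (c a) (VST.unionL (c a) (P a) S) K')))
          else none)) ?_ (by fun_prop)
      refine PT.Poly.map (f := fun (p : α × List ℕ) (Q : List ℕ) =>
          if VST.goodL (c p.1) (P p.1) (K p.1) p.2 Q = true then
            VST.oadd (some (VST.costL (c p.1) (P p.1) p.2))
              (VST.osum ((VST.compsL (c p.1).1
                (VST.restL (c p.1) (P p.1) (K p.1) p.2 Q)).map (fun K' =>
                VST.optL s t d (c p.1) (VST.unionL (c p.1) (P p.1) p.2) K')))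
          else none) h1 (by fun_prop)
    fun_prop

end poly

end Pool.Agent.H.MP_5be563_lc.VST
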