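import Pool.Agent.H.MP_5be563_lc.VST.Parse

/-!
Testing for induced claws and induced paths.
-/

set_option linter.unusedSectionVars false

namespace Pool.Agent.H.MP_5be563_lc.VST

open PT

/-- pattern test: some list `l` of `m` vertices matches all entries of the table -/
def hasPat (m : ℕ) (H : List (ℕ × ℕ × Bool)) (M : List (List Bool)) : Bool :=
  (tuples (List.range M.length) m).any (fun l => H.all (fun e =>
    !(l.getD e.1 0 == l.getD e.2.1 0) && (adjL M (l.getD e.1 0) (l.getD e.2.1 0) == e.2.2)))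

/-- table of a graph on `0, …, m-1` -/
def tab (adj : ℕ → ℕ → Bool) (m : ℕ) : List (ℕ × ℕ × Bool) :=
  (List.range m).flatMap (fun j => (List.range j).map (fun i => (i, j, adj i j)))

@[fun_prop]
theorem Poly.hasPat {α : Type} [Enc α] (m : ℕ) (H : List (ℕ × ℕ × Bool))
    {M : α → List (List Bool)} (hM : PT.Poly M) : PT.Poly (fun a => hasPat m H (M a)) := by
  unfold VST.hasPat
  fun_prop

theorem mem_tab {adj : ℕ → ℕ → Bool} {m : ℕ} {e : ℕ × ℕ × Bool} :
    e ∈ tab adj m ↔ e.1 < e.2.1 ∧ e.2.1 < m ∧ e.2.2 = adj e.1 e.2.1 := by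
  obtain ⟨i, j, b⟩ := e
  simp only [tab, List.mem_flatMap, List.mem_map, List.mem_range, Prod.mk.injEq]
  constructor
  · rintro ⟨j', hj', i', hi', rfl, rfl, rfl⟩
    exact ⟨hi', hj', rfl⟩
  · rintro ⟨h1, h2, h3⟩
    exact ⟨j, h2, i, h1, rfl, rfl, h3.symm⟩

/-- `p` is a copy of the pattern -/
def IsPat (G : SimpleGraph ℕ) (adj : ℕ → ℕ → Bool) (m : ℕ) (p : ℕ → ℕ) : Prop :=
  ∀ i j, i < j → j < m → p i ≠ p j ∧ (G.Adj (p i) (p j) ↔ adj i j = true)

theorem hasPat_iff {M : List (List Bool)} {G : SimpleGraph ℕ}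
    (hM : ∀ i j, adjL M i j = true ↔ G.Adj i j) (adj : ℕ → ℕ → Bool) (m : ℕ) :
    hasPat m (tab adj m) M = true ↔
      ∃ p : ℕ → ℕ, (∀ i, i < m → p i < M.length) ∧ IsPat G adj m p := by
  unfold hasPat
  rw [List.any_eq_true]
  constructor
  · rintro ⟨l, hl, h⟩
    rw [mem_tuples] at hl
    rw [List.all_eq_true] at h
    refine ⟨fun i => l.getD i 0, ?_, ?_⟩
    · intro i hi
      have hi' : i < l.length := by omega
      have : l.getD i 0 ∈ l := by
        rw [List.getD_eq_getElem?_getD, List.getElem?_eq_getElem hi']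
        simp
      exact List.mem_range.1 (hl.2 _ this)
    · intro i j hij hj
      have h1 := h (i, j, adj i j) (mem_tab.2 ⟨hij, hj, rfl⟩)
      rw [Bool.and_eq_true] at h1
      obtain ⟨h1, h2⟩ := h1
      have h2' := beq_iff_eq.1 h2
      refine ⟨?_, ?_⟩
      · intro he
        have : (l.getD i 0 == l.getD j 0) = true := beq_iff_eq.2 he
        simp only [] at h1
        rw [this] at h1
        simp at h1
      · rw [← hM]
        simp only [] at h2' ⊢
        rw [h2']
  · rintro ⟨p, hp, h⟩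
    refine ⟨(List.range m).map p, ?_, ?_⟩
    · rw [mem_tuples]
      refine ⟨by simp, ?_⟩
      intro x hx
      obtain ⟨i, hi, rfl⟩ := List.mem_map.1 hx
      exact List.mem_range.2 (hp i (List.mem_range.1 hi))
    · rw [List.all_eq_true]
      rintro e he
      rw [mem_tab] at he
      obtain ⟨h1, h2, h3⟩ := he
      have g1 : ((List.range m).map p).getD e.1 0 = p e.1 := by
        rw [List.getD_eq_getElem?_getD, List.getElem?_eq_getElem (by simp; omega)]
        simp
      have g2 : ((List.range m).map p).getD e.2.1 0 = p e.2.1 := by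
        rw [List.getD_eq_getElem?_getD, List.getElem?_eq_getElem (by simp; omega)]
        simp
      rw [g1, g2]
      have h4 := h e.1 e.2.1 h1 h2
      rw [Bool.and_eq_true]
      constructor
      · rw [Bool.not_eq_true', beq_eq_false_iff_ne]
        exact h4.1
      · rw [beq_iff_eq, Bool.eq_iff_iff, hM, h4.2, h3]

/-- a graph on `Fin n` seen as a graph on `ℕ` -/
def natGraph {n : ℕ} (G : SimpleGraph (Fin n)) : SimpleGraph ℕ where
  Adj i j := ∃ (hi : i < n) (hj : j < n), G.Adj ⟨i, hi⟩ ⟨j, hj⟩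
  symm := ⟨fun _ _ ⟨hi, hj, h⟩ => ⟨hj, hi, h.symm⟩⟩
  loopless := ⟨fun _ ⟨_, _, h⟩ => h.ne rfl⟩

theorem natGraph_adj {n : ℕ} {G : SimpleGraph (Fin n)} (a b : Fin n) :
    (natGraph G).Adj a b ↔ G.Adj a b :=
  ⟨fun ⟨_, _, h⟩ => h, fun h => ⟨a.2, b.2, h⟩⟩

theorem path_iff {n : ℕ} {G : SimpleGraph (Fin n)} (t : ℕ) :
    (∃ p : ℕ → ℕ, (∀ i, i < t → p i < n) ∧
      IsPat (natGraph G) (fun i j => decide (j = i + 1)) t p) ↔
      (SimpleGraph.pathGraph t).IsIndContained G := by
  constructor
  · rintro ⟨p, hp, h⟩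
    have hinj : ∀ i j : Fin t, i ≠ j → p i ≠ p j := by
      intro i j hij
      have hij' : (i : ℕ) ≠ j := fun h => hij (Fin.ext h)
      rcases Nat.lt_or_gt_of_ne hij' with h1 | h1
      · exact (h i j h1 j.2).1
      · exact ((h j i h1 i.2).1).symm
    refine ⟨⟨⟨fun i => ⟨p i, hp i i.2⟩, ?_⟩, ?_⟩⟩
    · intro i j hij
      by_contra hne
      exact hinj i j hne (by simpa using hij)
    · intro i j
      simp only [Function.Embedding.coeFn_mk]
      rw [← natGraph_adj, SimpleGraph.pathGraph_adj]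
      simp only
      rcases Nat.lt_trichotomy (i : ℕ) j with h1 | h1 | h1
      · rw [(h i j h1 j.2).2]; simp; omega
      · have : i = j := Fin.ext h1
        subst this; simp
      · rw [(natGraph G).adj_comm, (h j i h1 i.2).2]; simp; omega
  · rintro ⟨e⟩
    refine ⟨fun i => if h : i < t then (e ⟨i, h⟩ : ℕ) else 0, ?_, ?_⟩
    · intro i hi
      simp [hi]
    · intro i j hij hj
      have hi : i < t := by omega
      simp only [hi, hj, dif_pos]
      constructor
      · intro h
        have := e.injective (Fin.ext h)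
        simp only [Fin.mk.injEq] at this
        omega
      · rw [natGraph_adj, SimpleGraph.Embedding.map_adj_iff, SimpleGraph.pathGraph_adj]
        simp; omega

theorem claw_iff {n : ℕ} {G : SimpleGraph (Fin n)} :
    (∃ p : ℕ → ℕ, (∀ i, i < 4 → p i < n) ∧
      IsPat (natGraph G) (fun i _ => decide (i = 0)) 4 p) ↔
      (completeBipartiteGraph (Fin 1) (Fin 3)).IsIndContained G := by
  constructor
  · rintro ⟨p, hp, h⟩
    have hinj : ∀ i j, i < 4 → j < 4 → i ≠ j → p i ≠ p j := by
      intro i j hi hj hij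
      rcases Nat.lt_or_gt_of_ne hij with h1 | h1
      · exact (h i j h1 hj).1
      · exact ((h j i h1 hi).1).symm
    let ix : Fin 1 ⊕ Fin 3 → ℕ := fun v => match v with
      | .inl _ => 0
      | .inr k => k + 1
    have hix : ∀ v, ix v < 4 := by
      rintro (v | v)
      · simp [ix]
      · simp only [ix]; omega
    have hixinj : Function.Injective ix := by
      rintro (v | v) (w | w) hvw
      · congr 1; exact Subsingleton.elim _ _
      · simp [ix] at hvw
      · simp [ix] at hvw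
      · simp only [ix] at hvw
        congr 1
        exact Fin.ext (by omega)
    refine ⟨⟨⟨fun v => ⟨p (ix v), hp _ (hix v)⟩, ?_⟩, ?_⟩⟩
    · intro v w hvw
      by_contra hne
      exact hinj _ _ (hix v) (hix w) (fun he => hne (hixinj he)) (by simpa using hvw)
    · intro v w
      simp only [Function.Embedding.coeFn_mk]
      rw [← natGraph_adj]
      simp only
      rcases v with v | v <;> rcases w with w | w
      · simp [completeBipartiteGraph, ix]
      · rw [(h (ix (.inl v)) (ix (.inr w)) (by simp [ix]) (hix (.inr w))).2]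
        simp [completeBipartiteGraph, ix]
      · rw [(natGraph G).adj_comm,
          (h (ix (.inl w)) (ix (.inr v)) (by simp [ix]) (hix (.inr v))).2]
        simp [completeBipartiteGraph, ix]
      · have : ¬ (natGraph G).Adj (p (ix (.inr v))) (p (ix (.inr w))) := by
          rcases Nat.lt_trichotomy (v : ℕ) w with h1 | h1 | h1
          · rw [(h (ix (.inr v)) (ix (.inr w)) (by simp only [ix]; omega)
              (hix (.inr w))).2]
            simp [ix]
          · have : v = w := Fin.ext h1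
            subst this; simp
          · rw [(natGraph G).adj_comm,
              (h (ix (.inr w)) (ix (.inr v)) (by simp only [ix]; omega)
                (hix (.inr v))).2]
            simp [ix]
        simp [completeBipartiteGraph, this]
  · rintro ⟨e⟩
    let xi : ℕ → Fin 1 ⊕ Fin 3 := fun i =>
      if i = 0 then .inl 0 else if i = 1 then .inr 0 else if i = 2 then .inr 1 else .inr 2
    refine ⟨fun i => (e (xi i) : ℕ), fun i _ => (e (xi i)).2, ?_⟩
    intro i j hij hj
    have hne : xi i ≠ xi j := by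
      have : (i = 0 ∧ (j = 1 ∨ j = 2 ∨ j = 3)) ∨ (i = 1 ∧ (j = 2 ∨ j = 3)) ∨
        (i = 2 ∧ j = 3) := by omega
      rcases this with ⟨rfl, rfl | rfl | rfl⟩ | ⟨rfl, rfl | rfl⟩ | ⟨rfl, rfl⟩ <;> simp [xi]
    constructor
    · intro h
      exact hne (e.injective (Fin.ext h))
    · rw [natGraph_adj, SimpleGraph.Embedding.map_adj_iff]
      have : (i = 0 ∧ (j = 1 ∨ j = 2 ∨ j = 3)) ∨ (i = 1 ∧ (j = 2 ∨ j = 3)) ∨
        (i = 2 ∧ j = 3) := by omega
      rcases this with ⟨rfl, rfl | rfl | rfl⟩ | ⟨rfl, rfl | rfl⟩ | ⟨rfl, rfl⟩ <;>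
        simp [xi, completeBipartiteGraph]

theorem clawFree_of {n : ℕ} {G : SimpleGraph (Fin n)}
    (h : ¬ (completeBipartiteGraph (Fin 1) (Fin 3)).IsIndContained G) :
    ClawFree (natGraph G) := by
  intro x a b c hxa hxb hxc hab hac hbc
  by_contra hcon
  push Not at hcon
  apply h
  rw [← claw_iff]
  refine ⟨fun i => if i = 0 then x else if i = 1 then a else if i = 2 then b else c, ?_, ?_⟩
  · intro i _
    obtain ⟨h1, h2, _⟩ := hxa
    obtain ⟨_, h3, _⟩ := hxb
    obtain ⟨_, h4, _⟩ := hxc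
    by_cases i0 : i = 0
    · simp [i0, h1]
    · by_cases i1 : i = 1
      · simp [i1, h2]
      · by_cases i2 : i = 2
        · simp [i2, h3]
        · simp [i0, i1, i2, h4]
  · intro i j hij hj
    have : (i = 0 ∧ (j = 1 ∨ j = 2 ∨ j = 3)) ∨ (i = 1 ∧ (j = 2 ∨ j = 3)) ∨
      (i = 2 ∧ j = 3) := by omega
    rcases this with ⟨rfl, rfl | rfl | rfl⟩ | ⟨rfl, rfl | rfl⟩ | ⟨rfl, rfl⟩
    · simpa using ⟨hxa.ne, hxa⟩
    · simpa using ⟨hxb.ne, hxb⟩
    · simpa using ⟨hxc.ne, hxc⟩
    · simpa using ⟨hab, hcon.1⟩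
    · simpa using ⟨hac, hcon.2.1⟩
    · simpa using ⟨hbc, hcon.2.2⟩

theorem pathFree_of {n : ℕ} {G : SimpleGraph (Fin n)} (hn : 0 < n) {t : ℕ}
    (h : ¬ (SimpleGraph.pathGraph t).IsIndContained G) :
    ∀ p : ℕ → ℕ, ¬ IndP (natGraph G) p t := by
  intro p hp
  apply h
  rw [← path_iff]
  by_cases ht : 2 ≤ t
  · refine ⟨p, ?_, ?_⟩
    · intro i hi
      rcases Nat.eq_zero_or_pos i with rfl | h0
      · obtain ⟨h1, _, _⟩ := (hp 0 1 (by omega) (by omega)).2.2 rfl
        exact h1
      · obtain ⟨_, h1, _⟩ := (hp (i - 1) i (by omega) hi).2.2 (by omega)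
        exact h1
    · intro i j hij hj
      refine ⟨(hp i j hij hj).1, (hp i j hij hj).2.trans ?_⟩
      simp
  · exact ⟨fun _ => 0, fun i hi => hn, fun i j hij hj => by omega⟩

end Pool.Agent.H.MP_5be563_lc.VST
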