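import Pool.Agent.H.MP_5be563_lc.VST.Paths

/-!
The recursion solving Vertex Steiner Tree on claw-free graphs without long induced paths, and its
correctness.
-/

set_option linter.unusedSectionVars false

namespace Pool.Agent.H.MP_5be563_lc.VST

variable {V : Type*} [DecidableEq V]

/-- Reachability inside `B` (the starting vertex is not required to be in `B`). -/
def RI (G : SimpleGraph V) (B : Finset V) : V → V → Prop :=
  Relation.ReflTransGen (fun x y => G.Adj x y ∧ y ∈ B)

section basic

variable {G : SimpleGraph V} {B B' : Finset V} {a b c : V}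

theorem RI.refl : RI G B a a := Relation.ReflTransGen.refl

theorem RI.trans (h : RI G B a b) (h' : RI G B b c) : RI G B a c :=
  Relation.ReflTransGen.trans h h'

theorem RI.tail (h : RI G B a b) (h' : G.Adj b c) (hc : c ∈ B) : RI G B a c :=
  Relation.ReflTransGen.tail h ⟨h', hc⟩

theorem RI.single (h' : G.Adj a c) (hc : c ∈ B) : RI G B a c :=
  RI.refl.tail h' hc

theorem RI.mono (hB : B ⊆ B') (h : RI G B a b) : RI G B' a b :=
  Relation.ReflTransGen.mono (fun _ _ h => ⟨h.1, hB h.2⟩) a b h

theorem RI.eq_or_mem (h : RI G B a b) : b = a ∨ b ∈ B := by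
  induction h with
  | refl => exact Or.inl rfl
  | tail _ h _ => exact Or.inr h.2

theorem RI.symm (h : RI G B a b) (ha : a ∈ B) : RI G B b a := by
  induction h with
  | refl => exact RI.refl
  | @tail y z hy hyz ih =>
    have hyB : y ∈ B := by
      rcases RI.eq_or_mem hy with rfl | h
      · exact ha
      · exact h
    exact (RI.single hyz.1.symm hyB).trans ih

open Classical in
/-- the component of `v` in the graph induced by `B` -/
noncomputable def comp (G : SimpleGraph V) (B : Finset V) (v : V) : Finset V :=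
  B.filter (fun u => RI G B v u)

/-- all components of the graph induced by `B` -/
noncomputable def comps (G : SimpleGraph V) (B : Finset V) : Finset (Finset V) :=
  B.image (comp G B)

theorem mem_comp {u v : V} : u ∈ comp G B v ↔ u ∈ B ∧ RI G B v u := by
  simp [comp]

theorem mem_comp_self {v : V} (h : v ∈ B) : v ∈ comp G B v := mem_comp.2 ⟨h, RI.refl⟩

theorem comp_mem_comps {v : V} (h : v ∈ B) : comp G B v ∈ comps G B :=
  Finset.mem_image_of_mem _ h

theorem comp_eq {u v : V} (hv : v ∈ B) (h : u ∈ comp G B v) : comp G B u = comp G B v := by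
  ext x
  rw [mem_comp] at h
  simp only [mem_comp]
  constructor
  · rintro ⟨h1, h2⟩
    exact ⟨h1, h.2.trans h2⟩
  · rintro ⟨h1, h2⟩
    exact ⟨h1, (h.2.symm hv).trans h2⟩

theorem comps_subset {K : Finset V} (hK : K ∈ comps G B) : K ⊆ B := by
  obtain ⟨v, _, rfl⟩ := Finset.mem_image.1 hK
  exact fun x hx => (mem_comp.1 hx).1

theorem comps_closed {K : Finset V} (hK : K ∈ comps G B) (ha : a ∈ K) (hb : b ∈ B)
    (hab : G.Adj a b) : b ∈ K := by
  obtain ⟨v, _, rfl⟩ := Finset.mem_image.1 hK
  rw [mem_comp] at ha ⊢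
  exact ⟨hb, ha.2.tail hab hb⟩

theorem comps_eq_of_mem {K K' : Finset V} (hK : K ∈ comps G B) (hK' : K' ∈ comps G B)
    (h : a ∈ K) (h' : a ∈ K') : K = K' := by
  obtain ⟨v, hv, rfl⟩ := Finset.mem_image.1 hK
  obtain ⟨v', hv', rfl⟩ := Finset.mem_image.1 hK'
  rw [← comp_eq hv h, ← comp_eq hv' h']

theorem comps_connected {K : Finset V} (hK : K ∈ comps G B) (ha : a ∈ K) (hb : b ∈ K) :
    RI G K a b := by
  obtain ⟨v, hv, rfl⟩ := Finset.mem_image.1 hK
  have key : ∀ x, RI G B v x → x ∈ B → RI G (comp G B v) v x := by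
    intro x hx
    induction hx with
    | refl => intro _; exact RI.refl
    | @tail y z hy hyz ih =>
      intro hz
      have hyB : y ∈ B := by
        rcases RI.eq_or_mem hy with rfl | h
        · exact hv
        · exact h
      exact (ih hyB).tail hyz.1 (mem_comp.2 ⟨hyz.2, RI.tail hy hyz.1 hyz.2⟩)
  have ha' := mem_comp.1 ha
  have hb' := mem_comp.1 hb
  exact ((key a ha'.2 ha'.1).symm (mem_comp_self hv)).trans (key b hb'.2 hb'.1)

open Classical in
/-- closed neighbourhood inside the ground set `W` -/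
noncomputable def nb (G : SimpleGraph V) (W : Finset V) (P : Finset V) : Finset V :=
  W.filter (fun x => x ∈ P ∨ ∃ p ∈ P, G.Adj p x)

theorem mem_nb {W P : Finset V} {x : V} :
    x ∈ nb G W P ↔ x ∈ W ∧ (x ∈ P ∨ ∃ p ∈ P, G.Adj p x) := by
  simp [nb]

theorem nb_mono {W P P' : Finset V} (h : P ⊆ P') : nb G W P ⊆ nb G W P' := by
  intro x hx
  rw [mem_nb] at hx ⊢
  refine ⟨hx.1, ?_⟩
  rcases hx.2 with h1 | ⟨p, hp, h1⟩
  · exact Or.inl (h h1)
  · exact Or.inr ⟨p, h hp, h1⟩

end basic

/-- every vertex of `Z` can be reached from `P` inside `P ∪ Z` -/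
def Conn (G : SimpleGraph V) (P Z : Finset V) : Prop :=
  ∀ z ∈ Z, ∃ p ∈ P, RI G (P ∪ Z) p z

open Classical in
/-- The recursion. -/
noncomputable def optF (G : SimpleGraph V) (W U : Finset V) (w : V → ℕ)
    (Ts Tt : List (List V)) : ℕ → Finset V → Finset V → ℕ∞
  | 0, _, K => if U ∩ K = ∅ then 0 else ⊤
  | d + 1, P, K => if U ∩ K = ∅ then 0 else
      (Ts.flatMap fun S => Tt.map fun Q =>
        if (∀ s ∈ S, ∃ p ∈ P, RI G (P ∪ S.toFinset) p s) ∧
            (∀ u ∈ K, u ∈ U → u ∈ nb G W Q.toFinset → u ∈ nb G W (P ∪ S.toFinset)) then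
          ((∑ v ∈ (S.toFinset \ P) \ U, w v : ℕ) : ℕ∞) +
            ∑ K' ∈ comps G ((K \ nb G W Q.toFinset) \ nb G W (P ∪ S.toFinset)),
              optF G W U w Ts Tt d (P ∪ S.toFinset) K'
        else ⊤).foldr min ⊤

theorem foldr_min_le {l : List ℕ∞} {a : ℕ∞} (h : a ∈ l) : l.foldr min ⊤ ≤ a := by
  induction l with
  | nil => simp at h
  | cons b l ih =>
    rcases List.mem_cons.1 h with rfl | h
    · exact min_le_left _ _
    · exact (min_le_right _ _).trans (ih h)

theorem foldr_min_mem {l : List ℕ∞} (h : l.foldr min ⊤ ≠ ⊤) : l.foldr min ⊤ ∈ l := by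
  induction l with
  | nil => simp at h
  | cons b l ih =>
    simp only [List.foldr_cons] at h ⊢
    rcases min_choice b (l.foldr min ⊤) with h1 | h1
    · rw [h1]; simp
    · rw [h1] at h ⊢
      exact List.mem_cons_of_mem _ (ih h)

theorem sum_ne_top {ι : Type*} {s : Finset ι} {f : ι → ℕ∞} (h : ∑ i ∈ s, f i ≠ ⊤) :
    ∀ i ∈ s, f i ≠ ⊤ := by
  classical
  intro i hi he
  apply h
  rw [← Finset.add_sum_erase s f hi, he]
  simp

theorem sum_biUnion_le' (C : Finset (Finset V)) (g : Finset V → Finset V) (w : V → ℕ) :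
    ∑ v ∈ C.biUnion g, w v ≤ ∑ K ∈ C, ∑ v ∈ g K, w v := by
  classical
  induction C using Finset.induction_on with
  | empty => simp
  | insert K C hK ih =>
    rw [Finset.biUnion_insert, Finset.sum_insert hK]
    have := Finset.sum_union_inter (s₁ := g K) (s₂ := C.biUnion g) (f := w)
    omega

section sound

variable {G : SimpleGraph V} {W U : Finset V} {w : V → ℕ} {Ts Tt : List (List V)}

/-- Gluing solutions of the subproblems. -/
theorem glue (P S : Finset V) (C : Finset (Finset V)) (T : Finset V) (f : Finset V → Finset V)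
    (hS : ∀ s ∈ S, ∃ p ∈ P, RI G (P ∪ S) p s)
    (hf : ∀ K ∈ C, Conn G (P ∪ S) (f K))
    (hT : ∀ u ∈ T, (u ∈ nb G W (P ∪ S)) ∨ ∃ K ∈ C, u ∈ f K) :
    Conn G P (S ∪ T ∪ C.biUnion f) ∧
      ∑ v ∈ ((S ∪ T ∪ C.biUnion f) \ P) \ (U ∪ T), w v ≤
        ∑ v ∈ (S \ P) \ U, w v + ∑ K ∈ C, ∑ v ∈ (f K \ (P ∪ S)) \ U, w v := by
  set Z := S ∪ T ∪ C.biUnion f with hZ
  have hSZ : P ∪ S ⊆ P ∪ Z := by
    intro x hx
    simp only [hZ, Finset.mem_union] at hx ⊢
    tauto
  -- reach from P every vertex of S
  have reachS : ∀ s ∈ P ∪ S, ∃ p ∈ P, RI G (P ∪ Z) p s := by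
    intro s hs
    rcases Finset.mem_union.1 hs with h | h
    · exact ⟨s, h, RI.refl⟩
    · obtain ⟨p, hp, h1⟩ := hS s h
      exact ⟨p, hp, h1.mono hSZ⟩
  have reachF : ∀ K ∈ C, ∀ z ∈ f K, ∃ p ∈ P, RI G (P ∪ Z) p z := by
    intro K hK z hz
    obtain ⟨p', hp', h1⟩ := hf K hK z hz
    obtain ⟨p, hp, h2⟩ := reachS p' hp'
    refine ⟨p, hp, h2.trans (h1.mono ?_)⟩
    intro x hx
    rcases Finset.mem_union.1 hx with h | h
    · exact hSZ h
    · refine Finset.mem_union_right _ ?_
      rw [hZ]
      exact Finset.mem_union_right _ (Finset.mem_biUnion.2 ⟨K, hK, h⟩)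
  constructor
  · intro z hz
    rw [hZ] at hz
    rcases Finset.mem_union.1 hz with h | h
    · rcases Finset.mem_union.1 h with h | h
      · exact reachS z (Finset.mem_union_right _ h)
      · rcases hT z h with h1 | ⟨K, hK, h1⟩
        · rw [mem_nb] at h1
          rcases h1.2 with h2 | ⟨p', hp', h2⟩
          · exact reachS z h2
          · obtain ⟨p, hp, h3⟩ := reachS p' hp'
            refine ⟨p, hp, h3.tail h2 ?_⟩
            refine Finset.mem_union_right _ ?_
            rw [hZ]
            exact Finset.mem_union_left _ (Finset.mem_union_right _ h)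
        · exact reachF K hK z h1
    · obtain ⟨K, hK, h1⟩ := Finset.mem_biUnion.1 h
      exact reachF K hK z h1
  · have hsub : (Z \ P) \ (U ∪ T) ⊆ ((S \ P) \ U) ∪ C.biUnion (fun K => (f K \ (P ∪ S)) \ U) := by
      intro x hx
      simp only [hZ, Finset.mem_sdiff, Finset.mem_union, Finset.mem_biUnion] at hx ⊢
      obtain ⟨⟨h1, h2⟩, h3⟩ := hx
      push Not at h3
      rcases h1 with (h1 | h1) | ⟨K, hK, h1⟩
      · left; exact ⟨⟨h1, h2⟩, h3.1⟩
      · exact absurd h1 h3.2
      · by_cases hxS : x ∈ S
        · left; exact ⟨⟨hxS, h2⟩, h3.1⟩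
        · right; exact ⟨K, hK, ⟨h1, by tauto⟩, h3.1⟩
    calc ∑ v ∈ (Z \ P) \ (U ∪ T), w v
        ≤ ∑ v ∈ ((S \ P) \ U) ∪ C.biUnion (fun K => (f K \ (P ∪ S)) \ U), w v :=
          Finset.sum_le_sum_of_subset hsub
      _ ≤ ∑ v ∈ (S \ P) \ U, w v + ∑ v ∈ C.biUnion (fun K => (f K \ (P ∪ S)) \ U), w v := by
          have := Finset.sum_union_inter (s₁ := (S \ P) \ U)
            (s₂ := C.biUnion (fun K => (f K \ (P ∪ S)) \ U)) (f := w)
          omega
      _ ≤ _ := by
          gcongr
          exact sum_biUnion_le' C (fun K => (f K \ (P ∪ S)) \ U) w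

theorem optF_sound : ∀ (d : ℕ) (P K : Finset V), K ⊆ W →
    optF G W U w Ts Tt d P K ≠ ⊤ →
    ∃ Z : Finset V, Conn G P Z ∧ U ∩ K ⊆ Z ∧
      ((∑ v ∈ (Z \ P) \ U, w v : ℕ) : ℕ∞) ≤ optF G W U w Ts Tt d P K := by
  classical
  intro d
  induction d with
  | zero =>
    intro P K _ h
    by_cases hU : U ∩ K = ∅
    · exact ⟨∅, fun z hz => absurd hz (Finset.notMem_empty z), by simp [hU], by simp⟩
    · simp [optF, hU] at h
  | succ d ih =>
    intro P K hKW h
    by_cases hU : U ∩ K = ∅
    · exact ⟨∅, fun z hz => absurd hz (Finset.notMem_empty z), by simp [hU], by simp⟩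
    · have hopt : optF G W U w Ts Tt (d + 1) P K = (Ts.flatMap fun S => Tt.map fun Q =>
        if (∀ s ∈ S, ∃ p ∈ P, RI G (P ∪ S.toFinset) p s) ∧
            (∀ u ∈ K, u ∈ U → u ∈ nb G W Q.toFinset → u ∈ nb G W (P ∪ S.toFinset)) then
          ((∑ v ∈ (S.toFinset \ P) \ U, w v : ℕ) : ℕ∞) +
            ∑ K' ∈ comps G ((K \ nb G W Q.toFinset) \ nb G W (P ∪ S.toFinset)),
              optF G W U w Ts Tt d (P ∪ S.toFinset) K'
        else ⊤).foldr min ⊤ := by
        simp [optF, hU]
      rw [hopt] at h ⊢
      have hmem := foldr_min_mem h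
      obtain ⟨S, hS, hmem⟩ := List.mem_flatMap.1 hmem
      obtain ⟨Q, hQ, hval⟩ := List.mem_map.1 hmem
      rw [← hval] at h ⊢
      by_cases hgood : (∀ s ∈ S, ∃ p ∈ P, RI G (P ∪ S.toFinset) p s) ∧
            (∀ u ∈ K, u ∈ U → u ∈ nb G W Q.toFinset → u ∈ nb G W (P ∪ S.toFinset))
      · rw [if_pos hgood] at h ⊢
        set B := (K \ nb G W Q.toFinset) \ nb G W (P ∪ S.toFinset) with hB
        have hBW : B ⊆ W := fun x hx => hKW (by
          rw [hB] at hx
          simp only [Finset.mem_sdiff] at hx
          exact hx.1.1)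
        have hsum : ∀ K' ∈ comps G B, optF G W U w Ts Tt d (P ∪ S.toFinset) K' ≠ ⊤ := by
          apply sum_ne_top
          intro he
          rw [he] at h
          simp at h
        have hex : ∀ K' ∈ comps G B, ∃ Z : Finset V, Conn G (P ∪ S.toFinset) Z ∧ U ∩ K' ⊆ Z ∧
            ((∑ v ∈ (Z \ (P ∪ S.toFinset)) \ U, w v : ℕ) : ℕ∞) ≤
              optF G W U w Ts Tt d (P ∪ S.toFinset) K' :=
          fun K' hK' => ih _ K' ((comps_subset hK').trans hBW) (hsum K' hK')
        choose! f hf1 hf2 hf3 using hex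
        have hg := glue (G := G) (W := W) (U := U) (w := w) P S.toFinset (comps G B) (U ∩ K) f
          (by intro s hs; exact hgood.1 s (List.mem_toFinset.1 hs)) hf1 (by
            intro u hu
            rw [Finset.mem_inter] at hu
            by_cases h1 : u ∈ nb G W (P ∪ S.toFinset)
            · exact Or.inl h1
            · right
              have h2 : u ∈ B := by
                rw [hB]
                simp only [Finset.mem_sdiff]
                exact ⟨⟨hu.2, fun h3 => h1 (hgood.2 u hu.2 hu.1 h3)⟩, h1⟩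
              exact ⟨comp G B u, comp_mem_comps h2, hf2 _ (comp_mem_comps h2)
                (Finset.mem_inter.2 ⟨hu.1, mem_comp_self h2⟩)⟩)
        refine ⟨_, hg.1, ?_, ?_⟩
        · intro x hx
          simp only [Finset.mem_union]
          exact Or.inl (Or.inr hx)
        · have hUT : U ∪ U ∩ K = U := Finset.union_eq_left.2 Finset.inter_subset_left
          have h2 := hg.2
          rw [hUT] at h2
          calc _ ≤ (((∑ v ∈ (S.toFinset \ P) \ U, w v + ∑ K' ∈ comps G B,
                ∑ v ∈ (f K' \ (P ∪ S.toFinset)) \ U, w v : ℕ)) : ℕ∞) := by exact_mod_cast h2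
            _ = ((∑ v ∈ (S.toFinset \ P) \ U, w v : ℕ) : ℕ∞) + ∑ K' ∈ comps G B,
                ((∑ v ∈ (f K' \ (P ∪ S.toFinset)) \ U, w v : ℕ) : ℕ∞) := by
              push_cast; rfl
            _ ≤ _ := by
              gcongr with K' hK'
              exact hf3 K' hK'
      · rw [if_neg hgood] at h
        exact absurd rfl h

end sound

/-! ### Completeness -/

section complete

variable {G : SimpleGraph V} {W U : Finset V} {w : V → ℕ}

/-- Splitting a solution along the components of `B`. -/
theorem split (hG : ClawFree G) (P Z B : Finset V) (hPW : P ⊆ W) (hZW : Z ⊆ W) (hBW : B ⊆ W)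
    (hconn : ∀ z ∈ Z, ∃ p ∈ P, RI G (P ∪ Z) p z)
    (hBP : ∀ x ∈ B, x ∉ nb G W P)
    (hZB : ∀ z ∈ Z, z ∉ nb G W P → z ∈ B) :
    ∃ f : Finset V → Finset V,
      (∀ K ∈ comps G B, f K ⊆ K ∪ nb G W P ∧ f K ⊆ Z \ P ∧ Z ∩ K ⊆ f K ∧
        Conn G P (f K)) ∧
      ((comps G B : Finset (Finset V)) : Set (Finset V)).PairwiseDisjoint f := by
  classical
  have hnbP : ∀ p ∈ P, ∀ x ∈ W, G.Adj p x → x ∈ nb G W P := by
    intro p hp x hx h
    rw [mem_nb]
    exact ⟨hx, Or.inr ⟨p, hp, h⟩⟩
  have hnbS : ∀ p ∈ P, p ∈ nb G W P := by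
    intro p hp
    rw [mem_nb]
    exact ⟨hPW hp, Or.inl hp⟩
  refine ⟨fun K => (Z \ P).filter (fun v => v ∈ K ∨ (v ∈ nb G W P ∧ ∃ k ∈ K, G.Adj v k)),
    ?_, ?_⟩
  · intro K hK
    refine ⟨?_, ?_, ?_, ?_⟩
    · intro x hx
      simp only [Finset.mem_filter, Finset.mem_union] at hx ⊢
      tauto
    · exact Finset.filter_subset _ _
    · intro x hx
      simp only [Finset.mem_filter, Finset.mem_inter, Finset.mem_sdiff] at hx ⊢
      refine ⟨⟨hx.1, fun h => ?_⟩, Or.inl hx.2⟩
      exact hBP x (comps_subset hK hx.2) (hnbS x h)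
    · -- connectivity
      set F := (Z \ P).filter (fun v => v ∈ K ∨ (v ∈ nb G W P ∧ ∃ k ∈ K, G.Adj v k)) with hF
      have key : ∀ p ∈ P, ∀ z, RI G (P ∪ Z) p z → z ∈ K → ∃ p' ∈ P, RI G (P ∪ F) p' z := by
        intro p hp z hz
        induction hz with
        | refl => intro h; exact absurd (hnbS p hp) (hBP p (comps_subset hK h))
        | @tail y z hy hyz ih =>
          intro hzK
          have hzB := comps_subset hK hzK
          have hzP : z ∉ P := fun h => hBP z hzB (hnbS z h)
          have hzZ : z ∈ Z := by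
            rcases Finset.mem_union.1 hyz.2 with h | h
            · exact absurd h hzP
            · exact h
          have hzF : z ∈ F := by
            rw [hF, Finset.mem_filter, Finset.mem_sdiff]
            exact ⟨⟨hzZ, hzP⟩, Or.inl hzK⟩
          by_cases hyK : y ∈ K
          · obtain ⟨p', hp', h⟩ := ih hyK
            exact ⟨p', hp', h.tail hyz.1 (Finset.mem_union_right _ hzF)⟩
          · have hyP : y ∉ P := fun h => hBP z hzB (hnbP y h z (hZW hzZ) hyz.1)
            have hyZ : y ∈ Z := by
              rcases RI.eq_or_mem hy with h | h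
              · rw [h] at hyP; exact absurd hp hyP
              · rcases Finset.mem_union.1 h with h | h
                · exact absurd h hyP
                · exact h
            have hyN : y ∈ nb G W P := by
              by_contra hcon
              exact hyK (comps_closed hK hzK (hZB y hyZ hcon) hyz.1.symm)
            have hyF : y ∈ F := by
              rw [hF, Finset.mem_filter, Finset.mem_sdiff]
              exact ⟨⟨hyZ, hyP⟩, Or.inr ⟨hyN, z, hzK, hyz.1⟩⟩
            rw [mem_nb] at hyN
            rcases hyN.2 with h | ⟨p', hp', h⟩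
            · exact absurd h hyP
            · exact ⟨p', hp', (RI.single h (Finset.mem_union_right _ hyF)).tail hyz.1
                (Finset.mem_union_right _ hzF)⟩
      intro z hz
      change z ∈ F at hz
      have hz' := hz
      rw [hF, Finset.mem_filter, Finset.mem_sdiff] at hz'
      rcases hz'.2 with h | ⟨h, _⟩
      · obtain ⟨p, hp, h1⟩ := hconn z hz'.1.1
        exact key p hp z h1 h
      · rw [mem_nb] at h
        rcases h.2 with h | ⟨p', hp', h⟩
        · exact absurd h hz'.1.2
        · exact ⟨p', hp', RI.single h (Finset.mem_union_right _ hz)⟩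
  · -- disjointness
    intro K hK K' hK' hne
    rw [Function.onFun, Finset.disjoint_left]
    intro v hv hv'
    simp only [Finset.mem_filter, Finset.mem_sdiff] at hv hv'
    have hK := Finset.mem_coe.1 hK
    have hK' := Finset.mem_coe.1 hK'
    rcases hv.2 with h | ⟨h, k, hk, hvk⟩
    · rcases hv'.2 with h' | ⟨h', _⟩
      · exact hne (comps_eq_of_mem hK hK' h h')
      · exact hBP v (comps_subset hK h) h'
    · rcases hv'.2 with h' | ⟨h', k', hk', hvk'⟩
      · exact hBP v (comps_subset hK' h') h
      · rw [mem_nb] at h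
        rcases h.2 with h | ⟨p, hp, h⟩
        · exact hv.1.2 h
        · have hkB := comps_subset hK hk
          have hkB' := comps_subset hK' hk'
          have e1 : p ≠ k := by rintro rfl; exact hBP p hkB (hnbS p hp)
          have e2 : p ≠ k' := by rintro rfl; exact hBP p hkB' (hnbS p hp)
          have e3 : k ≠ k' := by rintro rfl; exact hne (comps_eq_of_mem hK hK' hk hk')
          have kW : ∀ x ∈ B, G.Adj p x → False := by
            intro x hx hpx
            exact hBP x hx (hnbP p hp x (hBW hx) hpx)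
          rcases hG v p k k' h.symm hvk hvk' e1 e2 e3 with h3 | h3 | h3
          · exact kW k hkB h3
          · exact kW k' hkB' h3
          · exact hne (comps_eq_of_mem hK hK' (comps_closed hK hk hkB' h3) hk')

/-- From reachability to walks counted from the end. -/
theorem RN_of_RI {A : V → Prop} {B : Finset V} {a v : V} (ha : A a) (h : RI G B a v) :
    ∃ n, RN G A (fun x => x ∈ B) n v := by
  induction h with
  | refl => exact ⟨0, ha⟩
  | @tail y z _ hyz ih =>
    obtain ⟨n, hn⟩ := ih
    exact ⟨n + 1, hyz.2, y, hn, hyz.1⟩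

/-- Short connections: in a graph without induced paths on `t` vertices, every vertex of `Z` is
connected to `P` inside `P ∪ Z` by at most `t` vertices. -/
theorem short (t : ℕ) (hP : ∀ p : ℕ → V, ¬ IndP G p t) (P Z : Finset V) (p0 : V) (hp0 : p0 ∈ P)
    (hconn : Conn G P Z) (z : V) (hz : z ∈ P ∪ Z) :
    ∃ L : List V, L.length = t ∧ (∀ l ∈ L, l ∈ P ∪ Z) ∧ (z ∈ P ∨ z ∈ L) ∧
      (∀ l ∈ L, ∃ p ∈ P, RI G (P ∪ L.toFinset) p l) := by
  classical
  have hex : ∃ m, Ex G (fun x => x ∈ P) (fun x => x ∈ P ∪ Z) m z := by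
    rcases Finset.mem_union.1 hz with h | h
    · obtain ⟨m, _, hm⟩ := Ex.exists_of_RN (G := G) (A := fun x => x ∈ P)
        (B := fun x => x ∈ P ∪ Z) (n := 0) (v := z) h
      exact ⟨m, hm⟩
    · obtain ⟨p, hp, h1⟩ := hconn z h
      obtain ⟨n, hn⟩ := RN_of_RI (A := fun x => x ∈ P) hp h1
      obtain ⟨m, _, hm⟩ := Ex.exists_of_RN hn
      exact ⟨m, hm⟩
  obtain ⟨m, hm⟩ := hex
  obtain ⟨x, hx0, hx1, hx2⟩ := hm.path
  have hInd : IndP G x (m + 1) := Ex.indP hx1 hx2
  have hmt : m + 1 < t := by
    by_contra hcon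
    exact hP x (hInd.mono (by omega))
  have hxm : x m ∈ P := by
    have := hx1 m le_rfl
    rw [Nat.sub_self] at this
    exact this.1
  have hxB : ∀ i, i < m → x i ∈ P ∪ Z := by
    intro i hi
    have := hx1 i (by omega)
    obtain ⟨k, hk⟩ : ∃ k, m - i = k + 1 := ⟨m - i - 1, by omega⟩
    rw [hk] at this
    exact this.1.1
  refine ⟨(List.range t).map (fun i => if i < m then x i else p0), by simp, ?_, ?_, ?_⟩
  · intro l hl
    obtain ⟨i, _, rfl⟩ := List.mem_map.1 hl
    by_cases h : i < m
    · simp only [h, if_true]; exact hxB i h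
    · simp only [h, if_false]; exact Finset.mem_union_left _ hp0
  · rcases Nat.eq_zero_or_pos m with h | h
    · left; rw [← hx0]; rw [h] at hxm; exact hxm
    · right
      rw [List.mem_map]
      exact ⟨0, by simp; omega, by simp [h, hx0]⟩
  · set L := (List.range t).map (fun i => if i < m then x i else p0) with hL
    have hxL : ∀ i, i < m → x i ∈ P ∪ L.toFinset := by
      intro i hi
      refine Finset.mem_union_right _ (List.mem_toFinset.2 ?_)
      rw [hL, List.mem_map]
      exact ⟨i, by simp; omega, by simp [hi]⟩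
    have reach : ∀ k, k ≤ m → RI G (P ∪ L.toFinset) (x m) (x (m - k)) := by
      intro k
      induction k with
      | zero => intro _; exact RI.refl
      | succ k ih =>
        intro hk
        refine (ih (by omega)).tail ?_ (hxL _ (by omega))
        have := hx2 (m - (k + 1)) (by omega)
        rw [show m - (k + 1) + 1 = m - k by omega] at this
        exact this.symm
    intro l hl
    rw [hL, List.mem_map] at hl
    obtain ⟨i, _, rfl⟩ := hl
    by_cases h : i < m
    · simp only [h, if_true]
      have := reach (m - i) (by omega)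
      rw [show m - (m - i) = i by omega] at this
      exact ⟨x m, hxm, this⟩
    · simp only [h, if_false]
      exact ⟨p0, hp0, RI.refl⟩

/-- Two vertices dominate the part of `Z` in a closed neighbourhood. -/
theorem two_dominate (hG : ClawFree G) (Z : Finset V) (q p0 : V) (T : Finset V) (hp0 : p0 ∈ T)
    (hZT : Z ⊆ T) :
    ∃ a ∈ T, ∃ b ∈ T, ∀ z ∈ Z, (z = q ∨ G.Adj q z) →
      (z = a ∨ G.Adj a z) ∨ (z = b ∨ G.Adj b z) := by
  classical
  by_cases h0 : ∃ a ∈ Z, (a = q ∨ G.Adj q a)
  · obtain ⟨a, haZ, ha⟩ := h0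
    by_cases h1 : ∃ b ∈ Z, (b = q ∨ G.Adj q b) ∧ b ≠ a ∧ ¬ G.Adj a b
    · obtain ⟨b, hbZ, hb, hba, hnab⟩ := h1
      refine ⟨a, hZT haZ, b, hZT hbZ, ?_⟩
      intro z hzZ hz
      by_contra hcon
      push Not at hcon
      obtain ⟨⟨hza, haz⟩, hzb, hbz⟩ := hcon
      rcases ha with rfl | ha
      · rcases hb with rfl | hb
        · exact hba rfl
        · exact hnab hb
      · rcases hb with rfl | hb
        · exact hnab ha.symm
        · rcases hz with rfl | hz
          · exact haz ha.symm
          · rcases hG q a b z ha hb hz hba.symm hza.symm hzb.symm with h | h | h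
            · exact hnab h
            · exact haz h
            · exact hbz h
    · push Not at h1
      refine ⟨a, hZT haZ, a, hZT haZ, ?_⟩
      intro z hzZ hz
      by_cases hza : z = a
      · exact Or.inl (Or.inl hza)
      · exact Or.inl (Or.inr (h1 z hzZ hz hza))
  · push Not at h0
    refine ⟨p0, hp0, p0, hp0, ?_⟩
    intro z hzZ hz
    rcases hz with h | h
    · exact absurd h (h0 z hzZ).1
    · exact absurd h (h0 z hzZ).2

/-- every solution gives an upper bound for the recursion -/
theorem optF_complete (hG : ClawFree G) (t : ℕ) (hPt : ∀ p : ℕ → V, ¬ IndP G p t)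
    {Ts Tt : List (List V)}
    (hTs : ∀ S : List V, S.length = t * (2 * t) → (∀ s ∈ S, s ∈ W) → S ∈ Ts)
    (hTt : ∀ Q : List V, Q.length = t → (∀ s ∈ Q, s ∈ W) → Q ∈ Tt) :
    ∀ (d : ℕ) (P K Z : Finset V), P ⊆ W → K ⊆ W → Z ⊆ W → P.Nonempty →
      (∀ x ∈ K, x ∉ nb G W P) → (∀ x ∈ K, ∀ y ∈ K, RI G K x y) → Z ⊆ K ∪ nb G W P →
      U ∩ K ⊆ Z → Conn G P Z → (∀ p, IndP G p (d + 1) → ∃ i, i < d + 1 ∧ p i ∉ K) →
      optF G W U w Ts Tt d P K ≤ ((∑ v ∈ Z \ U, w v : ℕ) : ℕ∞) := by
  classical
  intro d
  induction d with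
  | zero =>
    intro P K Z _ _ _ _ _ _ _ _ _ hd
    have hK : K = ∅ := by
      rw [Finset.eq_empty_iff_forall_notMem]
      intro x hx
      obtain ⟨i, _, hi⟩ := hd (fun _ => x) (fun i j hij hj => by omega)
      exact hi hx
    simp [optF, hK]
  | succ d ih =>
    intro P K Z hPW hKW hZW hPne hKP hKc hZK hUK hcon hd
    by_cases hU : U ∩ K = ∅
    · simp [optF, hU]
    · obtain ⟨p0, hp0⟩ := hPne
      -- a longest induced path in K
      obtain ⟨u0, hu0⟩ := Finset.nonempty_iff_ne_empty.2 hU
      have hu0K : u0 ∈ K := (Finset.mem_inter.1 hu0).2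
      have hex : ∃ m, ∀ p, IndP G p (m + 1) → ∃ i, i < m + 1 ∧ p i ∉ K := ⟨d + 1, hd⟩
      set m := Nat.find hex with hm
      have hmmax : ∀ p, IndP G p (m + 1) → ∃ i, i < m + 1 ∧ ¬ (p i ∈ K) := Nat.find_spec hex
      have hmle : m ≤ d + 1 := Nat.find_le hd
      have hm0 : 0 < m := by
        rcases Nat.eq_zero_or_pos m with h | h
        · rw [h] at hmmax
          obtain ⟨i, _, hi⟩ := hmmax (fun _ => u0) (fun i j hij hj => by omega)
          exact absurd hu0K hi
        · exact h
      obtain ⟨q, hq, hqK⟩ : ∃ q, IndP G q m ∧ ∀ i, i < m → q i ∈ K := by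
        have := Nat.find_min hex (show m - 1 < m by omega)
        push Not at this
        rw [show m - 1 + 1 = m by omega] at this
        exact this
      have hmt : m < t := by
        by_contra hcon
        exact hPt q (hq.mono (by omega))
      -- dominating vertices
      have hdom : ∀ i, ∃ a ∈ P ∪ Z, ∃ b ∈ P ∪ Z, ∀ z ∈ Z, (z = q i ∨ G.Adj (q i) z) →
          (z = a ∨ G.Adj a z) ∨ (z = b ∨ G.Adj b z) := fun i =>
        two_dominate hG Z (q i) p0 (P ∪ Z) (Finset.mem_union_left _ hp0)
          Finset.subset_union_right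
      choose a haPZ b hbPZ hab using hdom
      have hsh := short t hPt P Z p0 hp0 hcon
      choose! La hLa1 hLa2 hLa3 hLa4 using hsh
      -- the guessed lists
      set S : List V := (List.range t).flatMap (fun i => La (a i) ++ La (b i)) with hS
      set Q : List V := (List.range t).map (fun i => if i < m then q i else q 0) with hQ
      have hSlen : S.length = t * (2 * t) := by
        rw [hS, List.length_flatMap]
        have : (List.map (fun i => (La (a i) ++ La (b i)).length) (List.range t)) =
            List.map (fun _ => 2 * t) (List.range t) := by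
          apply List.map_congr_left
          intro i _
          rw [List.length_append, hLa1 _ (haPZ i), hLa1 _ (hbPZ i)]
          ring
        rw [this]
        simp
      have hSmem : ∀ s ∈ S, s ∈ P ∪ Z := by
        intro s hs
        rw [hS, List.mem_flatMap] at hs
        obtain ⟨i, _, hs⟩ := hs
        rcases List.mem_append.1 hs with h | h
        · exact hLa2 _ (haPZ i) s h
        · exact hLa2 _ (hbPZ i) s h
      have hPZW : P ∪ Z ⊆ W := Finset.union_subset hPW hZW
      have hSTs : S ∈ Ts := hTs S hSlen (fun s hs => hPZW (hSmem s hs))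
      have hQmem : ∀ s ∈ Q, ∃ i, i < m ∧ s = q i := by
        intro s hs
        rw [hQ, List.mem_map] at hs
        obtain ⟨i, _, rfl⟩ := hs
        by_cases h : i < m
        · exact ⟨i, h, by simp [h]⟩
        · exact ⟨0, hm0, by simp [h]⟩
      have hqQ : ∀ i, i < m → q i ∈ Q := by
        intro i hi
        rw [hQ, List.mem_map]
        exact ⟨i, by simp; omega, by simp [hi]⟩
      have hQTt : Q ∈ Tt := hTt Q (by simp [hQ]) (fun s hs => by
        obtain ⟨i, hi, rfl⟩ := hQmem s hs
        exact hKW (hqK i hi))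
      have hreach : ∀ s ∈ S, ∃ p ∈ P, RI G (P ∪ S.toFinset) p s := by
        intro s hs
        rw [hS, List.mem_flatMap] at hs
        obtain ⟨i, hi, hs⟩ := hs
        rcases List.mem_append.1 hs with h | h
        · obtain ⟨p, hp, h1⟩ := hLa4 _ (haPZ i) s h
          refine ⟨p, hp, h1.mono (Finset.union_subset_union_right ?_)⟩
          intro x hx
          rw [List.mem_toFinset] at hx ⊢
          rw [hS, List.mem_flatMap]
          exact ⟨i, hi, List.mem_append_left _ hx⟩
        · obtain ⟨p, hp, h1⟩ := hLa4 _ (hbPZ i) s h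
          refine ⟨p, hp, h1.mono (Finset.union_subset_union_right ?_)⟩
          intro x hx
          rw [List.mem_toFinset] at hx ⊢
          rw [hS, List.mem_flatMap]
          exact ⟨i, hi, List.mem_append_right _ hx⟩
      set P' := P ∪ S.toFinset with hP'
      have haP' : ∀ i, i < m → a i ∈ P' ∧ b i ∈ P' := by
        intro i hi
        constructor
        · rcases hLa3 _ (haPZ i) with h | h
          · exact Finset.mem_union_left _ h
          · refine Finset.mem_union_right _ (List.mem_toFinset.2 ?_)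
            rw [hS, List.mem_flatMap]
            exact ⟨i, by simp; omega, List.mem_append_left _ h⟩
        · rcases hLa3 _ (hbPZ i) with h | h
          · exact Finset.mem_union_left _ h
          · refine Finset.mem_union_right _ (List.mem_toFinset.2 ?_)
            rw [hS, List.mem_flatMap]
            exact ⟨i, by simp; omega, List.mem_append_right _ h⟩
      -- the part of Z near Q is near P'
      have hnear : ∀ z ∈ Z, z ∈ nb G W Q.toFinset → z ∈ nb G W P' := by
        intro z hz hzQ
        rw [mem_nb] at hzQ ⊢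
        refine ⟨hzQ.1, ?_⟩
        have : ∃ i, i < m ∧ (z = q i ∨ G.Adj (q i) z) := by
          rcases hzQ.2 with h | ⟨s, hs, h⟩
          · rw [List.mem_toFinset] at h
            obtain ⟨i, hi, rfl⟩ := hQmem z h
            exact ⟨i, hi, Or.inl rfl⟩
          · rw [List.mem_toFinset] at hs
            obtain ⟨i, hi, rfl⟩ := hQmem s hs
            exact ⟨i, hi, Or.inr h⟩
        obtain ⟨i, hi, h⟩ := this
        rcases hab i z hz h with (h | h) | (h | h)
        · left; rw [h]; exact (haP' i hi).1
        · right; exact ⟨a i, (haP' i hi).1, h⟩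
        · left; rw [h]; exact (haP' i hi).2
        · right; exact ⟨b i, (haP' i hi).2, h⟩
      have hgood : (∀ s ∈ S, ∃ p ∈ P, RI G (P ∪ S.toFinset) p s) ∧
          (∀ u ∈ K, u ∈ U → u ∈ nb G W Q.toFinset → u ∈ nb G W (P ∪ S.toFinset)) :=
        ⟨hreach, fun u hu huU huQ => hnear u (hUK (Finset.mem_inter.2 ⟨huU, hu⟩)) huQ⟩
      set B := (K \ nb G W Q.toFinset) \ nb G W P' with hB
      have hBK : B ⊆ K := fun x hx => by
        rw [hB] at hx; simp only [Finset.mem_sdiff] at hx; exact hx.1.1
      have hP'W : P' ⊆ W := by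
        rw [hP']
        refine Finset.union_subset hPW ?_
        intro x hx
        exact hPZW (hSmem x (List.mem_toFinset.1 hx))
      have hPP' : P ⊆ P' := Finset.subset_union_left
      have hP'Z : P' ⊆ P ∪ Z := by
        rw [hP']
        refine Finset.union_subset Finset.subset_union_left ?_
        intro x hx
        exact hSmem x (List.mem_toFinset.1 hx)
      obtain ⟨f, hf, hdisj⟩ := split (W := W) hG P' Z B hP'W hZW (hBK.trans hKW) (by
          intro z hz
          obtain ⟨p, hp, h⟩ := hcon z hz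
          exact ⟨p, hPP' hp, h.mono (Finset.union_subset_union_left hPP')⟩) (by
          intro x hx
          rw [hB, Finset.mem_sdiff] at hx
          exact hx.2) (by
          intro z hz hzP'
          rw [hB, Finset.mem_sdiff, Finset.mem_sdiff]
          refine ⟨⟨?_, fun h => hzP' (hnear z hz h)⟩, hzP'⟩
          rcases Finset.mem_union.1 (hZK hz) with h | h
          · exact h
          · exact absurd (nb_mono hPP' h) hzP')
      -- bound for the subproblems
      have hsub : ∀ K' ∈ comps G B, optF G W U w Ts Tt d P' K' ≤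
          ((∑ v ∈ f K' \ U, w v : ℕ) : ℕ∞) := by
        intro K' hK'
        obtain ⟨h1, h2, h3, h4⟩ := hf K' hK'
        have hK'B := comps_subset hK'
        refine ih P' K' (f K') hP'W (hK'B.trans (hBK.trans hKW))
          (fun x hx => hZW ((Finset.mem_sdiff.1 (h2 hx)).1)) ⟨p0, hPP' hp0⟩ ?_ ?_ h1 ?_ h4 ?_
        · intro x hx
          have := hK'B hx
          rw [hB, Finset.mem_sdiff] at this
          exact this.2
        · intro x hx y hy
          exact comps_connected hK' hx hy
        · intro u hu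
          rw [Finset.mem_inter] at hu
          refine h3 (Finset.mem_inter.2 ⟨?_, hu.2⟩)
          exact hUK (Finset.mem_inter.2 ⟨hu.1, hBK (hK'B hu.2)⟩)
        · intro p hp
          by_contra hcon'
          push Not at hcon'
          have hinB : ∀ i, i < m → p i ∈ B := fun i hi => hK'B (hcon' i (by omega))
          refine longest_path_dominates hG (K := fun x => x ∈ K) hm0 hq hqK hmmax ?_
            (hp.mono (by omega)) (fun i hi => hBK (hinB i hi)) ?_
          · intro v hv
            exact RN_of_RI (A := fun v => ∃ i, i < m ∧ v = q i) ⟨0, hm0, rfl⟩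
              (hKc (q 0) (hqK 0 hm0) v hv)
          · intro i j hi hj
            have h5 := hinB i hi
            rw [hB, Finset.mem_sdiff, Finset.mem_sdiff] at h5
            have h6 : p i ∉ nb G W Q.toFinset := h5.1.2
            rw [mem_nb] at h6
            push Not at h6
            have h7 := h6 (hKW h5.1.1)
            constructor
            · intro he
              exact h7.1 (List.mem_toFinset.2 (by rw [he]; exact hqQ j hj))
            · intro h
              exact h7.2 (q j) (List.mem_toFinset.2 (hqQ j hj)) h.symm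
      have hopt : optF G W U w Ts Tt (d + 1) P K = (Ts.flatMap fun S => Tt.map fun Q =>
        if (∀ s ∈ S, ∃ p ∈ P, RI G (P ∪ S.toFinset) p s) ∧
            (∀ u ∈ K, u ∈ U → u ∈ nb G W Q.toFinset → u ∈ nb G W (P ∪ S.toFinset)) then
          ((∑ v ∈ (S.toFinset \ P) \ U, w v : ℕ) : ℕ∞) +
            ∑ K' ∈ comps G ((K \ nb G W Q.toFinset) \ nb G W (P ∪ S.toFinset)),
              optF G W U w Ts Tt d (P ∪ S.toFinset) K'
        else ⊤).foldr min ⊤ := by
        simp [optF, hU]
      rw [hopt]
      refine le_trans (foldr_min_le (a := ((∑ v ∈ (S.toFinset \ P) \ U, w v : ℕ) : ℕ∞) +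
            ∑ K' ∈ comps G B, optF G W U w Ts Tt d P' K') ?_) ?_
      · rw [List.mem_flatMap]
        refine ⟨S, hSTs, ?_⟩
        rw [List.mem_map]
        exact ⟨Q, hQTt, if_pos hgood⟩
      calc ((∑ v ∈ (S.toFinset \ P) \ U, w v : ℕ) : ℕ∞) +
            ∑ K' ∈ comps G B, optF G W U w Ts Tt d P' K'
          ≤ ((∑ v ∈ (S.toFinset \ P) \ U, w v : ℕ) : ℕ∞) +
            ∑ K' ∈ comps G B, ((∑ v ∈ f K' \ U, w v : ℕ) : ℕ∞) := by
            gcongr with K' hK'
            exact hsub K' hK'
        _ = (((∑ v ∈ (S.toFinset \ P) \ U, w v) +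
            ∑ K' ∈ comps G B, ∑ v ∈ f K' \ U, w v : ℕ) : ℕ∞) := by
            push_cast; rfl
        _ ≤ _ := by
            have h1 : ∑ K' ∈ comps G B, ∑ v ∈ f K' \ U, w v =
                ∑ v ∈ (comps G B).biUnion (fun K' => f K' \ U), w v := by
              rw [Finset.sum_biUnion]
              intro K₁ h₁ K₂ h₂ hne
              exact (hdisj h₁ h₂ hne).mono Finset.sdiff_subset Finset.sdiff_subset
            rw [h1, ← Finset.sum_union]
            · have h2 : (S.toFinset \ P) \ U ∪ (comps G B).biUnion (fun K' => f K' \ U) ⊆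
                  Z \ U := by
                intro x hx
                rw [Finset.mem_union, Finset.mem_biUnion] at hx
                rw [Finset.mem_sdiff]
                rcases hx with h | ⟨K', hK', h⟩
                · rw [Finset.mem_sdiff, Finset.mem_sdiff] at h
                  refine ⟨?_, h.2⟩
                  rcases Finset.mem_union.1 (hSmem x (List.mem_toFinset.1 h.1.1)) with h3 | h3
                  · exact absurd h3 h.1.2
                  · exact h3
                · rw [Finset.mem_sdiff] at h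
                  exact ⟨(Finset.mem_sdiff.1 ((hf K' hK').2.1 h.1)).1, h.2⟩
              exact_mod_cast Finset.sum_le_sum_of_subset h2
            · rw [Finset.disjoint_left]
              intro x hx hx'
              rw [Finset.mem_biUnion] at hx'
              obtain ⟨K', hK', h⟩ := hx'
              rw [Finset.mem_sdiff] at h
              have h3 := (Finset.mem_sdiff.1 ((hf K' hK').2.1 h.1)).2
              rw [Finset.mem_sdiff, Finset.mem_sdiff] at hx
              exact h3 (Finset.mem_union_right _ hx.1.1)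

end complete

end Pool.Agent.H.MP_5be563_lc.VST
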