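import Pool.Agent.H.MP_5be563_lc.VST.Contain

/-!
The complete decision procedure and its specification.
-/

set_option linter.unusedSectionVars false

namespace Pool.Agent.H.MP_5be563_lc.VST

open PT

/-- absolute value of the `i`-th numerator -/
def numA (d : Dat) (i : ℕ) : List Bool := (d.2.2.getD (2 * i) []).tail

/-- `i`-th denominator -/
def den (d : Dat) (i : ℕ) : List Bool := d.2.2.getD (2 * i + 1) []

/-- sign of the `i`-th rational -/
def sgn (d : Dat) (i : ℕ) : Bool := (d.2.2.getD (2 * i) []).headD false

/-- weight of `i` times the product of all denominators of weights -/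
def scaled (d : Dat) (i : ℕ) : List Bool :=
  bmul (numA d i) (bprod ((List.range d.1.length).map
    (fun j => if j = i then [true] else den d j)))

/-- context for the recursion -/
def ctxOf (d : Dat) : Ctx := (d.1, d.2.1, (List.range d.1.length).map (fun i => scaled d i))

/-- product of the denominators of the weights -/
def denom (d : Dat) : List Bool := bprod ((List.range d.1.length).map (fun j => den d j))

/-- comparison of a scaled weight with the bound -/
def leK (d : Dat) (z : List Bool) : Bool :=
  !(sgn d d.1.length) &&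
    ble (bmul z (den d d.1.length)) (bmul (numA d d.1.length) (denom d))

/-- list of terminals -/
def termsL (d : Dat) : List ℕ :=
  (List.range d.1.length).filter (fun u => d.2.1.getD u false)

/-- optimum cost of the non-terminals -/
def optTopL (t : ℕ) (d : Dat) : Option (List Bool) :=
  osum ((compsL d.1 ((List.range d.1.length).filter
    (fun x => !(memb x (nbL d.1 [(termsL d).headD 0]))))).map
    (fun K => optL (t * (2 * t)) t t (ctxOf d) [(termsL d).headD 0] K))

/-- table of the claw -/
def clawTab : List (ℕ × ℕ × Bool) := tab (fun i _ => decide (i = 0)) 4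

/-- table of the path on `t` vertices -/
def pathTab (t : ℕ) : List (ℕ × ℕ × Bool) := tab (fun i j => decide (j = i + 1)) t

/-- the decision procedure on parsed data -/
def decideD (t : ℕ) (e : Bool) (d : Dat) : Bool :=
  (!(hasPat 4 clawTab d.1) && !(hasPat t (pathTab t) d.1)) &&
  (if (termsL d).isEmpty = true then
    ((!(sgn d d.1.length) && e) || (List.range d.1.length).any (fun v => leK d (scaled d v)))
  else (optTopL t d).elim false
    (fun z => leK d (badd (bsum ((termsL d).map (fun u => scaled d u))) z)))

section poly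

variable {α : Type} [Enc α]

@[fun_prop]
theorem Poly.numA {d : α → Dat} {i : α → ℕ} (hd : PT.Poly d) (hi : PT.Poly i) :
    PT.Poly (fun a => numA (d a) (i a)) := by
  unfold VST.numA
  fun_prop

@[fun_prop]
theorem Poly.den {d : α → Dat} {i : α → ℕ} (hd : PT.Poly d) (hi : PT.Poly i) :
    PT.Poly (fun a => den (d a) (i a)) := by
  unfold VST.den
  fun_prop

@[fun_prop]
theorem Poly.sgn {d : α → Dat} {i : α → ℕ} (hd : PT.Poly d) (hi : PT.Poly i) :
    PT.Poly (fun a => sgn (d a) (i a)) := by
  unfold VST.sgn
  fun_prop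

@[fun_prop]
theorem Poly.scaled {d : α → Dat} {i : α → ℕ} (hd : PT.Poly d) (hi : PT.Poly i) :
    PT.Poly (fun a => scaled (d a) (i a)) := by
  unfold VST.scaled
  fun_prop

@[fun_prop]
theorem Poly.ctxOf {d : α → Dat} (hd : PT.Poly d) : PT.Poly (fun a => ctxOf (d a)) := by
  unfold VST.ctxOf
  fun_prop

@[fun_prop]
theorem Poly.denom {d : α → Dat} (hd : PT.Poly d) : PT.Poly (fun a => denom (d a)) := by
  unfold VST.denom
  fun_prop

@[fun_prop]
theorem Poly.leK {d : α → Dat} {z : α → List Bool} (hd : PT.Poly d) (hz : PT.Poly z) :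
    PT.Poly (fun a => leK (d a) (z a)) := by
  unfold VST.leK
  fun_prop

@[fun_prop]
theorem Poly.termsL {d : α → Dat} (hd : PT.Poly d) : PT.Poly (fun a => termsL (d a)) := by
  unfold VST.termsL
  fun_prop

@[fun_prop]
theorem Poly.optTopL (t : ℕ) {d : α → Dat} (hd : PT.Poly d) :
    PT.Poly (fun a => optTopL t (d a)) := by
  unfold VST.optTopL
  have h1 : PT.Poly (fun p : α × List ℕ => VST.optL (t * (2 * t)) t t (VST.ctxOf (d p.1))
      [(VST.termsL (d p.1)).headD 0] p.2) :=
    Poly.optL _ _ _ (by fun_prop) (by fun_prop) (by fun_prop)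
  have h2 : PT.Poly (fun a => (VST.compsL (d a).1 ((List.range (d a).1.length).filter
    (fun x => !(memb x (VST.nbL (d a).1 [(VST.termsL (d a)).headD 0]))))).map
    (fun K => VST.optL (t * (2 * t)) t t (VST.ctxOf (d a)) [(VST.termsL (d a)).headD 0] K)) :=
    PT.Poly.map (f := fun a K => VST.optL (t * (2 * t)) t t (VST.ctxOf (d a))
      [(VST.termsL (d a)).headD 0] K) h1 (by fun_prop)
  fun_prop

@[fun_prop]
theorem Poly.decideD (t : ℕ) (e : Bool) {d : α → Dat} (hd : PT.Poly d) :
    PT.Poly (fun a => decideD t e (d a)) := by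
  unfold VST.decideD
  fun_prop

end poly

/-! ### Specification -/

/-- the `i`-th weight, and `k` for `i = n` -/
noncomputable def VSTInstance.q (x : VSTInstance) (i : ℕ) : ℚ :=
  if h : i < x.n then x.w ⟨i, h⟩ else x.k

theorem getD_pairs {α β : Type} (f g : α → β) (rest : List β) (dflt : β) :
    ∀ (L : List α) (i : ℕ), i < L.length →
      (L.flatMap (fun a => [f a, g a]) ++ rest).getD (2 * i) dflt = (L.map f).getD i dflt ∧
      (L.flatMap (fun a => [f a, g a]) ++ rest).getD (2 * i + 1) dflt =
        (L.map g).getD i dflt := by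
  intro L
  induction L with
  | nil => intro i hi; simp at hi
  | cons a L ih =>
    intro i hi
    cases i with
    | zero => simp
    | succ i =>
      have := ih i (by simpa using hi)
      have e1 : 2 * (i + 1) = 2 * i + 1 + 1 := by ring
      have e2 : 2 * (i + 1) + 1 = 2 * i + 1 + 1 + 1 := by ring
      rw [e1]
      simp only [List.flatMap_cons, List.cons_append, List.nil_append, List.getD_cons_succ,
        List.map_cons]
      exact this

theorem getD_pairs_last {α β : Type} (f g : α → β) (a b : β) (dflt : β) (L : List α) :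
    (L.flatMap (fun a => [f a, g a]) ++ [a, b]).getD (2 * L.length) dflt = a ∧
      (L.flatMap (fun a => [f a, g a]) ++ [a, b]).getD (2 * L.length + 1) dflt = b := by
  induction L with
  | nil => simp
  | cons c L ih =>
    have e1 : 2 * (L.length + 1) = 2 * L.length + 1 + 1 := by ring
    rw [List.length_cons, e1]
    simp only [List.flatMap_cons, List.cons_append, List.nil_append, List.getD_cons_succ]
    exact ih

theorem dat_length (x : VSTInstance) : x.dat.1.length = x.n := by
  simp [VSTInstance.dat]

theorem dat_nums (x : VSTInstance) {i : ℕ} (hi : i ≤ x.n) :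
    x.dat.2.2.getD (2 * i) [] = decide (x.q i < 0) :: Nat.bits (x.q i).num.natAbs ∧
      x.dat.2.2.getD (2 * i + 1) [] = Nat.bits (x.q i).den := by
  unfold VSTInstance.dat VSTInstance.q
  simp only
  rcases Nat.lt_or_ge i x.n with h | h
  · have := getD_pairs (fun i : Fin x.n => decide (x.w i < 0) :: Nat.bits (x.w i).num.natAbs)
      (fun i => Nat.bits (x.w i).den)
      [decide (x.k < 0) :: Nat.bits x.k.num.natAbs, Nat.bits x.k.den] []
      (List.finRange x.n) i (by simpa using h)
    rw [this.1, this.2]
    simp [List.getD_eq_getElem?_getD, h]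
  · have hin : i = x.n := by omega
    subst hin
    have := getD_pairs_last
      (fun i : Fin x.n => decide (x.w i < 0) :: Nat.bits (x.w i).num.natAbs)
      (fun i => Nat.bits (x.w i).den)
      (decide (x.k < 0) :: Nat.bits x.k.num.natAbs) (Nat.bits x.k.den) []
      (List.finRange x.n)
    rw [List.length_finRange] at this
    rw [this.1, this.2]
    simp

theorem bval_den (x : VSTInstance) {i : ℕ} (hi : i ≤ x.n) :
    bval (den x.dat i) = (x.q i).den := by
  unfold den
  rw [(dat_nums x hi).2, bval_bits]

theorem bval_numA (x : VSTInstance) {i : ℕ} (hi : i ≤ x.n) :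
    bval (numA x.dat i) = (x.q i).num.natAbs := by
  unfold numA
  rw [(dat_nums x hi).1]
  simp [bval_bits]

theorem sgn_dat (x : VSTInstance) {i : ℕ} (hi : i ≤ x.n) :
    sgn x.dat i = decide (x.q i < 0) := by
  unfold sgn
  rw [(dat_nums x hi).1]
  rfl

/-- the common denominator -/
noncomputable def VSTInstance.D (x : VSTInstance) : ℕ :=
  ∏ j ∈ Finset.range x.n, (x.q j).den

theorem D_pos (x : VSTInstance) : 0 < x.D :=
  Finset.prod_pos fun j _ => (x.q j).den_pos

theorem bval_denom (x : VSTInstance) : bval (denom x.dat) = x.D := by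
  unfold denom VSTInstance.D
  rw [bval_bprod, List.map_map, dat_length, Finset.prod_range, ← List.prod_ofFn]
  congr 1
  rw [List.ofFn_eq_map, ← List.map_coe_finRange_eq_range, List.map_map]
  apply List.map_congr_left
  intro i _
  simp only [Function.comp]
  exact bval_den x i.2.le

theorem bval_scaled (x : VSTInstance) {i : ℕ} (hi : i < x.n) :
    (bval (scaled x.dat i) : ℚ) = x.q i * x.D := by
  have hpos : 0 < x.q i := by
    unfold VSTInstance.q
    rw [dif_pos hi]
    exact x.w_pos _
  have h1 : bval (scaled x.dat i) = (x.q i).num.natAbs *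
      ∏ j ∈ Finset.range x.n, (if j = i then 1 else (x.q j).den) := by
    unfold scaled
    rw [bval_bmul, bval_numA x hi.le, bval_bprod, List.map_map, dat_length, Finset.prod_range,
      ← List.prod_ofFn]
    congr 2
    rw [List.ofFn_eq_map, ← List.map_coe_finRange_eq_range, List.map_map]
    apply List.map_congr_left
    intro j _
    simp only [Function.comp]
    by_cases hji : (j : ℕ) = i
    · simp [hji]
    · simp only [hji, if_false]
      exact bval_den x j.2.le
  have h2 : x.D = (x.q i).den * ∏ j ∈ Finset.range x.n, (if j = i then 1 else (x.q j).den) := by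
    unfold VSTInstance.D
    have hi' : i ∈ Finset.range x.n := Finset.mem_range.2 hi
    rw [← Finset.mul_prod_erase _ _ hi', ← Finset.mul_prod_erase _
      (fun j => if j = i then 1 else (x.q j).den) hi']
    simp only [if_true, one_mul]
    congr 1
    apply Finset.prod_congr rfl
    intro j hj
    rw [if_neg (Finset.ne_of_mem_erase hj)]
  rw [h1, h2]
  have h3 : ((x.q i).num.natAbs : ℚ) = (x.q i).num := by
    have : 0 < (x.q i).num := Rat.num_pos.2 hpos
    rw [Nat.cast_natAbs, abs_of_pos this]
  have h4 : x.q i * (x.q i).den = (x.q i).num := Rat.mul_den_eq_num _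
  push_cast
  rw [h3, ← h4]
  ring

theorem leK_iff (x : VSTInstance) (z : List Bool) :
    leK x.dat z = true ↔ (bval z : ℚ) / x.D ≤ x.k := by
  have hq : x.q x.n = x.k := by
    unfold VSTInstance.q
    rw [dif_neg (lt_irrefl _)]
  have hD : (0 : ℚ) < x.D := by exact_mod_cast D_pos x
  unfold leK
  rw [dat_length, Bool.and_eq_true, sgn_dat x le_rfl, hq, ble_iff, bval_bmul, bval_bmul,
    bval_den x le_rfl, bval_numA x le_rfl, bval_denom, hq, div_le_iff₀ hD]
  by_cases hk : x.k < 0
  · simp only [hk, decide_true, Bool.not_true, Bool.false_eq_true, false_and, false_iff, not_le]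
    have : (0 : ℚ) ≤ bval z := by positivity
    nlinarith
  · simp only [hk, decide_false, Bool.not_false, true_and]
    have hk' : 0 ≤ x.k := not_lt.1 hk
    have h3 : ((x.k).num.natAbs : ℚ) = (x.k).num := by
      have : 0 ≤ (x.k).num := Rat.num_nonneg.2 hk'
      rw [Nat.cast_natAbs, abs_of_nonneg this]
    have h4 : x.k * (x.k).den = (x.k).num := Rat.mul_den_eq_num _
    have hden : (0 : ℚ) < (x.k).den := by exact_mod_cast (x.k).den_pos
    have e1 : (bval z * x.k.den ≤ x.k.num.natAbs * x.D) ↔
        ((bval z : ℚ) * x.k.den ≤ x.k * x.D * x.k.den) := by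
      rw [show x.k * x.D * x.k.den = (x.k * x.k.den) * x.D by ring, h4, ← h3]
      exact_mod_cast Iff.rfl
    rw [e1]
    exact mul_le_mul_iff_left₀ hden

theorem adjL_dat (x : VSTInstance) (i j : ℕ) :
    adjL x.dat.1 i j = true ↔ (natGraph x.G).Adj i j := by
  unfold adjL VSTInstance.dat natGraph
  simp only
  by_cases hi : i < x.n
  · by_cases hj : j < x.n
    · simp [List.getD_eq_getElem?_getD, hi, hj]
    · simp [List.getD_eq_getElem?_getD, hi, hj]
  · simp [List.getD_eq_getElem?_getD, hi]

theorem term_dat (x : VSTInstance) (i : ℕ) :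
    x.dat.2.1.getD i false = true ↔ ∃ h : i < x.n, (⟨i, h⟩ : Fin x.n) ∈ x.U := by
  unfold VSTInstance.dat
  simp only
  by_cases hi : i < x.n
  · simp [List.getD_eq_getElem?_getD, hi]
  · simp [List.getD_eq_getElem?_getD, hi]

theorem mem_termsL (x : VSTInstance) (i : ℕ) :
    i ∈ termsL x.dat ↔ ∃ h : i < x.n, (⟨i, h⟩ : Fin x.n) ∈ x.U := by
  unfold termsL
  rw [List.mem_filter, dat_length, List.mem_range, term_dat]
  exact ⟨fun h => h.2, fun h => ⟨h.1, h⟩⟩

theorem termF_dat (x : VSTInstance) : termF (ctxOf x.dat) = x.U.map Fin.valEmbedding := by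
  ext i
  rw [mem_termF]
  change i < x.dat.1.length ∧ x.dat.2.1.getD i false = true ↔ _
  rw [dat_length, term_dat, Finset.mem_map]
  constructor
  · rintro ⟨_, h, h2⟩
    exact ⟨⟨i, h⟩, h2, rfl⟩
  · rintro ⟨v, hv, rfl⟩
    exact ⟨v.2, v.2, hv⟩

theorem wtF_dat (x : VSTInstance) (v : Fin x.n) :
    (wtF (ctxOf x.dat) v : ℚ) = x.w v * x.D := by
  have h1 : wtF (ctxOf x.dat) v = bval (scaled x.dat v) := by
    unfold wtF ctxOf
    simp only
    rw [List.getD_eq_getElem?_getD, List.getElem?_eq_getElem (by simp [dat_length])]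
    simp
  rw [h1, bval_scaled x v.2]
  congr 1
  unfold VSTInstance.q
  rw [dif_pos v.2]

/-- connectivity of an induced subgraph through reachability in `ℕ` -/
theorem preconnected_iff {n : ℕ} (G : SimpleGraph (Fin n)) (Z : Finset (Fin n)) (u0 : Fin n)
    (hu0 : u0 ∈ Z) : (G.induce (Z : Set (Fin n))).Preconnected ↔
      ∀ z ∈ Z.map Fin.valEmbedding, RI (natGraph G) (Z.map Fin.valEmbedding) u0 z := by
  constructor
  · intro h z hz
    obtain ⟨v, hv, rfl⟩ := Finset.mem_map.1 hz
    have h1 := h ⟨u0, hu0⟩ ⟨v, hv⟩
    rw [SimpleGraph.reachable_iff_reflTransGen] at h1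
    have key : ∀ w : (Z : Set (Fin n)), Relation.ReflTransGen
        (G.induce (Z : Set (Fin n))).Adj ⟨u0, hu0⟩ w →
        RI (natGraph G) (Z.map Fin.valEmbedding) u0 (w : Fin n) := by
      intro w hw
      induction hw with
      | refl => exact RI.refl
      | @tail b c _ hbc ih =>
        refine ih.tail ?_ ?_
        · rw [natGraph_adj]; exact hbc
        · exact Finset.mem_map.2 ⟨c, c.2, rfl⟩
    exact key _ h1
  · intro h
    have key : ∀ z, RI (natGraph G) (Z.map Fin.valEmbedding) u0 z →
        ∀ (v : Fin n) (hv : v ∈ Z), (v : ℕ) = z →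
        (G.induce (Z : Set (Fin n))).Reachable ⟨u0, hu0⟩ ⟨v, hv⟩ := by
      intro z hz
      induction hz with
      | refl =>
        intro v hv he
        have : v = u0 := Fin.ext he
        subst this
        exact SimpleGraph.Reachable.refl _
      | @tail b c hb hbc ih =>
        intro v hv he
        have hbZ : ∃ b' ∈ Z, (b' : ℕ) = b := by
          rcases RI.eq_or_mem hb with h1 | h1
          · exact ⟨u0, hu0, h1.symm⟩
          · obtain ⟨b', hb', h2⟩ := Finset.mem_map.1 h1
            exact ⟨b', hb', h2⟩
        obtain ⟨b', hb', rfl⟩ := hbZ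
        subst he
        refine (ih b' hb' rfl).trans (SimpleGraph.Adj.reachable ?_)
        change G.Adj b' v
        rw [← natGraph_adj]
        exact hbc.1
    intro a b
    have ha := key a (h a (Finset.mem_map.2 ⟨a, a.2, rfl⟩)) a a.2 rfl
    have hb := key b (h b (Finset.mem_map.2 ⟨b, b.2, rfl⟩)) b b.2 rfl
    exact ha.symm.trans hb

theorem oval_optTopL (t : ℕ) (x : VSTInstance) (u0 : ℕ) (hu0 : (termsL x.dat).headD 0 = u0)
    (hu0n : u0 < x.n) :
    oval (optTopL t x.dat) = optTop (natGraph x.G) (Finset.range x.n)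
      (x.U.map Fin.valEmbedding) (wtF (ctxOf x.dat)) (tuples (List.range x.n) (t * (2 * t)))
      (tuples (List.range x.n) t) t u0 := by
  unfold optTopL optTop
  rw [hu0, oval_osum, List.map_map]
  set B := (List.range x.dat.1.length).filter (fun y => !(memb y (nbL x.dat.1 [u0]))) with hB
  have hBN : B.Nodup := List.nodup_range.filter _
  have hBlt : ∀ y ∈ B, y < x.n := by
    intro y hy
    rw [hB, List.mem_filter, List.mem_range, dat_length] at hy
    exact hy.1
  have hM := adjL_dat x
  have hBF : B.toFinset = Finset.range x.n \ nb (natGraph x.G) (Finset.range x.n) {u0} := by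
    ext y
    rw [hB, List.mem_toFinset, List.mem_filter, List.mem_range, Finset.mem_sdiff,
      Finset.mem_range, Bool.not_eq_true', ← Bool.not_eq_true, memb_iff, mem_nbL hM, dat_length]
    simp
  rw [sum_compsL hM hBN _ (optF (natGraph x.G) (Finset.range x.n) (x.U.map Fin.valEmbedding)
    (wtF (ctxOf x.dat)) (tuples (List.range x.n) (t * (2 * t))) (tuples (List.range x.n) t) t
    {u0}) ?_, hBF]
  intro K hK
  obtain ⟨v, hv, rfl⟩ := mem_compsL hK
  have hlen : (ctxOf x.dat).1.length = x.n := dat_length x
  have h1 := optL_spec (G := natGraph x.G) (t * (2 * t)) t (ctxOf x.dat) hM t [u0]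
    (reachL x.dat.1 B [v]) (by rw [hlen]; simpa using hu0n) (by
      intro y hy
      rw [hlen]
      exact hBlt y ((mem_reachL hM (by simpa using hv)).1 hy).1) (by
      rw [reachL_canon hM hv]
      exact hBN.filter _)
  simp only [Function.comp]
  rw [h1, hlen, termF_dat]
  simp

/-- Correctness of the decision procedure. -/
theorem decideD_iff (t : ℕ) (e : Bool) (x : VSTInstance) :
    decideD t e x.dat = true ↔
      (¬ (completeBipartiteGraph (Fin 1) (Fin 3)).IsIndContained x.G ∧
        ¬ (SimpleGraph.pathGraph t).IsIndContained x.G ∧ x.IsYes e) := by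
  classical
  have hclaw : hasPat 4 clawTab x.dat.1 = true ↔
      (completeBipartiteGraph (Fin 1) (Fin 3)).IsIndContained x.G := by
    unfold clawTab
    rw [hasPat_iff (adjL_dat x), dat_length, claw_iff]
  have hpath : hasPat t (pathTab t) x.dat.1 = true ↔
      (SimpleGraph.pathGraph t).IsIndContained x.G := by
    unfold pathTab
    rw [hasPat_iff (adjL_dat x), dat_length, path_iff]
  unfold decideD
  rw [Bool.and_eq_true, Bool.and_eq_true, Bool.not_eq_true', Bool.not_eq_true',
    ← Bool.not_eq_true, ← Bool.not_eq_true, hclaw, hpath, and_assoc]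
  refine and_congr_right fun h1 => and_congr_right fun h2 => ?_
  have hq : x.q x.n = x.k := by
    unfold VSTInstance.q
    rw [dif_neg (lt_irrefl _)]
  have hD : (0 : ℚ) < x.D := by exact_mod_cast D_pos x
  by_cases hU : x.U = ∅
  · -- no terminals
    have hT : termsL x.dat = [] := by
      rw [List.eq_nil_iff_forall_not_mem]
      intro i hi
      rw [mem_termsL, hU] at hi
      obtain ⟨_, h⟩ := hi
      simp at h
    rw [hT]
    simp only [List.isEmpty_nil, if_true]
    rw [Bool.or_eq_true, Bool.and_eq_true, dat_length, sgn_dat x le_rfl, hq,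
      List.any_eq_true]
    constructor
    · rintro (⟨hk, he⟩ | ⟨v, hv, h⟩)
      · refine ⟨∅, by simp, ⟨?_, Or.inl he⟩, ?_⟩
        · rintro ⟨a, ha⟩
          simp [hU] at ha
        · simpa [hU] using hk
      · rw [List.mem_range] at hv
        rw [leK_iff, bval_scaled x hv, mul_div_assoc, div_self hD.ne', mul_one] at h
        unfold VSTInstance.q at h
        rw [dif_pos hv] at h
        refine ⟨{⟨v, hv⟩}, by simp [hU], ⟨?_, Or.inr ?_⟩, ?_⟩
        · rintro ⟨a, ha⟩ ⟨b, hb⟩
          have ha' : a = ⟨v, hv⟩ := by simpa [hU] using ha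
          have hb' : b = ⟨v, hv⟩ := by simpa [hU] using hb
          subst ha' hb'
          exact SimpleGraph.Reachable.refl _
        · exact ⟨⟨⟨v, hv⟩, by simp⟩⟩
        · simpa [hU] using h
    · rintro ⟨R, _, ⟨_, hne⟩, hsum⟩
      rw [hU, Finset.empty_union] at hsum
      by_cases hR : R = ∅
      · left
        subst hR
        simp only [Finset.sum_empty] at hsum
        refine ⟨by simpa using hsum, ?_⟩
        rcases hne with h | ⟨⟨a, ha⟩⟩
        · exact h
        · simp [hU] at ha
      · right
        obtain ⟨v, hv⟩ := Finset.nonempty_iff_ne_empty.2 hR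
        refine ⟨v, List.mem_range.2 v.2, ?_⟩
        rw [leK_iff, bval_scaled x v.2, mul_div_assoc, div_self hD.ne', mul_one]
        unfold VSTInstance.q
        rw [dif_pos v.2]
        exact (Finset.single_le_sum (f := x.w) (fun i _ => (x.w_pos i).le) hv).trans hsum
  · -- a terminal
    obtain ⟨a0, ha0⟩ := Finset.nonempty_iff_ne_empty.2 hU
    have hTne : termsL x.dat ≠ [] := by
      intro h
      have : (a0 : ℕ) ∈ termsL x.dat := (mem_termsL x a0).2 ⟨a0.2, ha0⟩
      rw [h] at this
      simp at this
    obtain ⟨hu0n, hu0U⟩ := (mem_termsL x _).1 (headD_mem hTne)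
    set u0 := (termsL x.dat).headD 0 with hu0
    have hemp : ¬ ((termsL x.dat).isEmpty = true) := by
      rw [List.isEmpty_iff]; exact hTne
    rw [if_neg hemp]
    have hn : 0 < x.n := by omega
    have hopt := oval_optTopL t x u0 hu0.symm hu0n
    have hUW : x.U.map Fin.valEmbedding ⊆ Finset.range x.n := by
      intro i hi
      obtain ⟨v, _, rfl⟩ := Finset.mem_map.1 hi
      exact Finset.mem_range.2 v.2
    have hu0m : u0 ∈ x.U.map Fin.valEmbedding :=
      Finset.mem_map.2 ⟨⟨u0, hu0n⟩, hu0U, rfl⟩
    have hTN : (termsL x.dat).Nodup := List.nodup_range.filter _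
    have hTF : (termsL x.dat).toFinset = x.U.map Fin.valEmbedding := by
      ext i
      rw [List.mem_toFinset, mem_termsL, Finset.mem_map]
      constructor
      · rintro ⟨h, h3⟩; exact ⟨⟨i, h⟩, h3, rfl⟩
      · rintro ⟨v, hv, rfl⟩; exact ⟨v.2, hv⟩
    have hsumU : ((bval (bsum ((termsL x.dat).map (fun u => scaled x.dat u))) : ℕ) : ℚ) =
        (∑ u ∈ x.U, x.w u) * x.D := by
      rw [bval_bsum, List.map_map, ← List.sum_toFinset _ hTN, hTF, Finset.sum_map,
        Finset.sum_mul]
      push_cast
      apply Finset.sum_congr rfl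
      intro u _
      simp only [Function.comp, Fin.valEmbedding_apply]
      rw [bval_scaled x u.2]
      congr 1
      unfold VSTInstance.q
      rw [dif_pos u.2]
    have hsumR : ∀ R : Finset (Fin x.n),
        ((∑ v ∈ R.map Fin.valEmbedding, wtF (ctxOf x.dat) v : ℕ) : ℚ) =
          (∑ u ∈ R, x.w u) * x.D := by
      intro R
      rw [Finset.sum_map, Finset.sum_mul]
      push_cast
      apply Finset.sum_congr rfl
      intro u _
      exact wtF_dat x u
    constructor
    · -- soundness
      intro h
      cases hz : optTopL t x.dat with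
      | none => rw [hz] at h; simp at h
      | some z =>
        rw [hz] at h hopt
        simp only [Option.elim] at h
        rw [oval_some] at hopt
        rw [leK_iff, bval_badd] at h
        obtain ⟨R', hR'W, hR'U, hR'c, hR's⟩ := optTop_sound (G := natGraph x.G)
          (W := Finset.range x.n) (U := x.U.map Fin.valEmbedding) (w := wtF (ctxOf x.dat))
          (Ts := tuples (List.range x.n) (t * (2 * t))) (Tt := tuples (List.range x.n) t)
          (fun a b hab => by
            obtain ⟨_, h3, _⟩ := hab
            exact Finset.mem_range.2 h3) hUW t u0 hu0m (by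
            rw [← hopt]; exact ENat.natCast_ne_top _)
        rw [← hopt] at hR's
        set R : Finset (Fin x.n) := Finset.univ.filter (fun v => (v : ℕ) ∈ R') with hR
        have hRR' : R.map Fin.valEmbedding = R' := by
          ext i
          rw [Finset.mem_map]
          constructor
          · rintro ⟨v, hv, rfl⟩
            exact (Finset.mem_filter.1 hv).2
          · intro hi
            refine ⟨⟨i, Finset.mem_range.1 (hR'W hi)⟩, ?_, rfl⟩
            rw [hR, Finset.mem_filter]
            exact ⟨Finset.mem_univ _, hi⟩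
        rw [← hRR'] at hR'U hR'c hR's
        have hdisj : Disjoint R x.U := (Finset.disjoint_map _).1 hR'U
        refine ⟨R, hdisj, ⟨?_, Or.inr ⟨⟨⟨u0, hu0n⟩, ?_⟩⟩⟩, ?_⟩
        · rw [preconnected_iff x.G (x.U ∪ R) ⟨u0, hu0n⟩ (Finset.mem_union_left _ hu0U),
            Finset.map_union]
          exact hR'c
        · exact Finset.mem_coe.2 (Finset.mem_union_left _ hu0U)
        · rw [Finset.sum_union hdisj.symm]
          have h3 : (∑ v ∈ R.map Fin.valEmbedding, wtF (ctxOf x.dat) v) ≤ bval z := by
            exact_mod_cast hR's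
          have h4 : (∑ u ∈ R, x.w u) * x.D ≤ bval z := by
            rw [← hsumR R]; exact_mod_cast h3
          push_cast at h
          rw [hsumU, div_le_iff₀ hD] at h
          have h5 : (∑ u ∈ x.U, x.w u + ∑ u ∈ R, x.w u) * x.D ≤ x.k * x.D := by
            rw [add_mul]; linarith
          exact le_of_mul_le_mul_right h5 hD
    · -- completeness
      rintro ⟨R, hdisj, ⟨hpre, _⟩, hsum⟩
      have hc := (preconnected_iff x.G (x.U ∪ R) ⟨u0, hu0n⟩
        (Finset.mem_union_left _ hu0U)).1 hpre
      rw [Finset.map_union] at hc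
      have hle := optTop_complete (G := natGraph x.G) (W := Finset.range x.n)
        (U := x.U.map Fin.valEmbedding) (w := wtF (ctxOf x.dat))
        (Ts := tuples (List.range x.n) (t * (2 * t))) (Tt := tuples (List.range x.n) t)
        (clawFree_of h1) t (pathFree_of hn h2) (by
          intro S hS hSW
          rw [mem_tuples]
          exact ⟨hS, fun y hy => List.mem_range.2 (Finset.mem_range.1 (hSW y hy))⟩) (by
          intro S hS hSW
          rw [mem_tuples]
          exact ⟨hS, fun y hy => List.mem_range.2 (Finset.mem_range.1 (hSW y hy))⟩)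
        hUW u0 hu0m (R.map Fin.valEmbedding) (by
          intro i hi
          obtain ⟨v, _, rfl⟩ := Finset.mem_map.1 hi
          exact Finset.mem_range.2 v.2) hc
      rw [← hopt] at hle
      cases hz : optTopL t x.dat with
      | none => rw [hz] at hle; simp at hle
      | some z =>
        rw [hz, oval_some] at hle
        simp only [Option.elim]
        rw [leK_iff, bval_badd]
        have h3 : bval z ≤ ∑ v ∈ R.map Fin.valEmbedding, wtF (ctxOf x.dat) v := by
          exact_mod_cast hle
        have h4 : (bval z : ℚ) ≤ (∑ u ∈ R, x.w u) * x.D := by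
          rw [← hsumR R]; exact_mod_cast h3
        push_cast
        rw [hsumU, div_le_iff₀ hD]
        rw [Finset.sum_union hdisj.symm] at hsum
        have h5 : (∑ u ∈ x.U, x.w u + ∑ u ∈ R, x.w u) * x.D ≤ x.k * x.D :=
          mul_le_mul_of_nonneg_right hsum hD.le
        rw [add_mul] at h5
        linarith

end Pool.Agent.H.MP_5be563_lc.VST
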