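import Mathlib

/-!
Instances of VERTEX STEINER TREE and their encoding by bit strings.
-/

namespace Pool.Agent.H.MP_5be563_lc.VST

/-- An instance of VERTEX STEINER TREE: a graph on `n` vertices, a positive rational weight for
each vertex, a set `U` of terminals and a number `k`. -/
structure VSTInstance where
  /-- number of vertices -/
  n : ℕ
  /-- the graph -/
  G : SimpleGraph (Fin n)
  /-- the vertex weights -/
  w : Fin n → ℚ
  w_pos : ∀ v, 0 < w v
  /-- the terminals -/
  U : Finset (Fin n)
  /-- the weight bound -/
  k : ℚ

/-- Connectedness of a graph. With `emptyOk = false` this is Mathlib's `SimpleGraph.Connected`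
(so a connected graph has a vertex); with `emptyOk = true` the graph without vertices counts as
connected too. -/
def IsConn (emptyOk : Bool) {V : Type} (H : SimpleGraph V) : Prop :=
  H.Preconnected ∧ (emptyOk = true ∨ Nonempty V)

/-- The yes-instances: there is a set `R` of non-terminals such that `G[U ∪ R]` is connected and
`w (U ∪ R) ≤ k`. -/
def VSTInstance.IsYes (emptyOk : Bool) (x : VSTInstance) : Prop :=
  ∃ R : Finset (Fin x.n), Disjoint R x.U ∧
    IsConn emptyOk (x.G.induce ((x.U ∪ R : Finset (Fin x.n)) : Set (Fin x.n))) ∧
    ∑ u ∈ x.U ∪ R, x.w u ≤ x.k

/-- Self-delimiting form of a bit string: each bit preceded by `1`, and a final `0`. -/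
def delim (l : List Bool) : List Bool := l.flatMap (fun b => [true, b]) ++ [false]

/-- Code of a rational number: sign and binary digits of the numerator, binary digits of the
denominator, both in self-delimiting form. -/
def encRat (q : ℚ) : List Bool :=
  delim (decide (q < 0) :: Nat.bits q.num.natAbs) ++ delim (Nat.bits q.den)

open Classical in
/-- The input string of an instance: `n` in unary, the adjacency matrix row by row, the
characteristic vector of `U`, the weights and `k` (in binary). -/
noncomputable def VSTInstance.encode (x : VSTInstance) : List Bool :=
  List.replicate x.n true ++ [false] ++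
  (List.finRange x.n).flatMap
    (fun i => (List.finRange x.n).map (fun j => decide (x.G.Adj i j))) ++
  (List.finRange x.n).map (fun i => decide (i ∈ x.U)) ++
  (List.finRange x.n).flatMap (fun i => encRat (x.w i)) ++
  encRat x.k

end Pool.Agent.H.MP_5be563_lc.VST
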