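import Pool.Agent.H.MP_5be563_lc.VST.Algo

/-!
The list algorithm computes the recursion.
-/

set_option linter.unusedSectionVars false

namespace Pool.Agent.H.MP_5be563_lc.VST

open PT

section spec

variable {M : List (List Bool)} {G : SimpleGraph ℕ}

theorem mem_nbL (hM : ∀ i j, adjL M i j = true ↔ G.Adj i j) {P : List ℕ} {x : ℕ} :
    x ∈ nbL M P ↔ x ∈ nb G (Finset.range M.length) P.toFinset := by
  simp [nbL, mem_nb, memb_iff, hM]

theorem mem_stepR (hM : ∀ i j, adjL M i j = true ↔ G.Adj i j) {B R : List ℕ} {x : ℕ} :
    x ∈ stepR M B R ↔ x ∈ B ∧ (x ∈ R ∨ ∃ y ∈ R, G.Adj y x) := by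
  simp [stepR, memb_iff, hM]

theorem stepR_iter_sound (hM : ∀ i j, adjL M i j = true ↔ G.Adj i j) {B s : List ℕ}
    (hs : ∀ x ∈ s, x ∈ B) (k : ℕ) : ∀ x ∈ (stepR M B)^[k] s,
      x ∈ B ∧ ∃ a ∈ s, RI G B.toFinset a x := by
  induction k with
  | zero => intro x hx; exact ⟨hs x hx, x, hx, RI.refl⟩
  | succ k ih =>
    intro x hx
    rw [Function.iterate_succ_apply', mem_stepR hM] at hx
    rcases hx.2 with h | ⟨y, hy, h⟩
    · exact ih x h
    · obtain ⟨_, a, ha, h1⟩ := ih y hy
      exact ⟨hx.1, a, ha, h1.tail h (List.mem_toFinset.2 hx.1)⟩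

theorem stepR_iter_mono (hM : ∀ i j, adjL M i j = true ↔ G.Adj i j) {B s : List ℕ}
    (hs : ∀ x ∈ s, x ∈ B) (k : ℕ) : ∀ x ∈ s, x ∈ (stepR M B)^[k] s := by
  induction k with
  | zero => intro x hx; exact hx
  | succ k ih =>
    intro x hx
    rw [Function.iterate_succ_apply', mem_stepR hM]
    exact ⟨hs x hx, Or.inl (ih x hx)⟩

theorem stepR_closed (hM : ∀ i j, adjL M i j = true ↔ G.Adj i j) {B : List ℕ} (k : ℕ) :
    ∀ R : List ℕ, (∀ x ∈ R, x ∈ B) → (B.toFinset \ R.toFinset).card ≤ k →
      ∀ x ∈ B, (∃ y ∈ (stepR M B)^[k] R, G.Adj y x) → x ∈ (stepR M B)^[k] R := by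
  induction k with
  | zero =>
    intro R hR hcard x hx _
    have : B.toFinset \ R.toFinset = ∅ := Finset.card_eq_zero.1 (Nat.le_zero.1 hcard)
    rw [Finset.sdiff_eq_empty_iff_subset] at this
    exact List.mem_toFinset.1 (this (List.mem_toFinset.2 hx))
  | succ k ih =>
    intro R hR hcard
    rw [Function.iterate_succ_apply]
    have hR' : ∀ x ∈ stepR M B R, x ∈ B := fun x hx => ((mem_stepR hM).1 hx).1
    by_cases hcl : ∀ x ∈ B, (∃ y ∈ R, G.Adj y x) → x ∈ R
    · -- already closed: everything is constant
      have hconst : ∀ (j : ℕ) (R' : List ℕ), (∀ x, x ∈ R' ↔ x ∈ R) →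
          ∀ x, x ∈ (stepR M B)^[j] R' ↔ x ∈ R := by
        intro j
        induction j with
        | zero => intro R' h x; exact h x
        | succ j ihj =>
          intro R' h x
          rw [Function.iterate_succ_apply]
          apply ihj
          intro z
          rw [mem_stepR hM]
          constructor
          · rintro ⟨hz, h1 | ⟨y, hy, h1⟩⟩
            · exact (h z).1 h1
            · exact hcl z hz ⟨y, (h y).1 hy, h1⟩
          · intro hz
            exact ⟨hR z hz, Or.inl ((h z).2 hz)⟩
      have e : ∀ x, x ∈ (stepR M B)^[k] (stepR M B R) ↔ x ∈ R := by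
        intro x
        rw [← Function.iterate_succ_apply]
        exact hconst (k + 1) R (fun _ => Iff.rfl) x
      rintro x hx ⟨y, hy, hyx⟩
      rw [e] at hy ⊢
      exact hcl x hx ⟨y, hy, hyx⟩
    · push Not at hcl
      obtain ⟨x0, hx0B, ⟨y0, hy0, hadj⟩, hx0R⟩ := hcl
      apply ih _ hR'
      have hlt : (B.toFinset \ (stepR M B R).toFinset).card <
          (B.toFinset \ R.toFinset).card := by
        apply Finset.card_lt_card
        rw [Finset.ssubset_iff_of_subset]
        · refine ⟨x0, ?_, ?_⟩
          · simp [hx0B, hx0R]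
          · rw [Finset.mem_sdiff, not_and, not_not]
            intro _
            rw [List.mem_toFinset, mem_stepR hM]
            exact ⟨hx0B, Or.inr ⟨y0, hy0, hadj⟩⟩
        · intro z hz
          rw [Finset.mem_sdiff, List.mem_toFinset, List.mem_toFinset, mem_stepR hM] at hz
          rw [Finset.mem_sdiff, List.mem_toFinset, List.mem_toFinset]
          exact ⟨hz.1, fun h => hz.2 ⟨hz.1, Or.inl h⟩⟩
      omega

theorem mem_reachL (hM : ∀ i j, adjL M i j = true ↔ G.Adj i j) {B s : List ℕ}
    (hs : ∀ x ∈ s, x ∈ B) {x : ℕ} :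
    x ∈ reachL M B s ↔ x ∈ B ∧ ∃ a ∈ s, RI G B.toFinset a x := by
  constructor
  · exact stepR_iter_sound hM hs _ x
  · rintro ⟨hx, a, ha, h⟩
    have hcl := stepR_closed hM (B := B) B.length s hs
      ((Finset.card_le_card Finset.sdiff_subset).trans (List.toFinset_card_le B))
    clear hx
    induction h with
    | refl => exact stepR_iter_mono hM hs _ a ha
    | @tail y z _ hyz ih => exact hcl z (List.mem_toFinset.1 hyz.2) ⟨y, ih, hyz.1⟩

theorem reachL_toFinset (hM : ∀ i j, adjL M i j = true ↔ G.Adj i j) {B : List ℕ} {v : ℕ}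
    (hv : v ∈ B) : (reachL M B [v]).toFinset = comp G B.toFinset v := by
  ext x
  rw [List.mem_toFinset, mem_reachL hM (by simpa using hv), mem_comp, List.mem_toFinset]
  simp

theorem reachL_canon (hM : ∀ i j, adjL M i j = true ↔ G.Adj i j) {B : List ℕ} {v : ℕ}
    (hv : v ∈ B) : reachL M B [v] = B.filter (fun x => memb x (reachL M B [v])) := by
  obtain ⟨k, hk⟩ : ∃ k, B.length = k + 1 := by
    cases B with
    | nil => simp at hv
    | cons b B => exact ⟨B.length, by simp⟩
  have h1 : reachL M B [v] = B.filter (fun x => memb x ((stepR M B)^[k] [v]) ||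
      ((stepR M B)^[k] [v]).any (fun y => adjL M y x)) := by
    unfold reachL
    rw [hk, iterate_stepR]
  set p : ℕ → Bool := fun x => memb x ((stepR M B)^[k] [v]) ||
      ((stepR M B)^[k] [v]).any (fun y => adjL M y x) with hp
  rw [h1]
  apply List.filter_congr
  intro x hx
  rw [Bool.eq_iff_iff, memb_iff, List.mem_filter]
  simp [hx]

theorem reachL_eq (hM : ∀ i j, adjL M i j = true ↔ G.Adj i j) {B : List ℕ} {u v : ℕ}
    (hu : u ∈ B) (hv : v ∈ B) (h : comp G B.toFinset u = comp G B.toFinset v) :
    reachL M B [u] = reachL M B [v] := by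
  rw [reachL_canon hM hu, reachL_canon hM hv]
  apply List.filter_congr
  intro x _
  rw [Bool.eq_iff_iff, memb_iff, memb_iff, ← List.mem_toFinset, ← List.mem_toFinset,
    reachL_toFinset hM hu, reachL_toFinset hM hv, h]

theorem headD_mem {l : List ℕ} (h : l ≠ []) : l.headD 0 ∈ l := by
  cases l with
  | nil => exact absurd rfl h
  | cons a l => simp

theorem sum_compsL (hM : ∀ i j, adjL M i j = true ↔ G.Adj i j) {B : List ℕ} (hB : B.Nodup)
    (F : List ℕ → ℕ∞) (F' : Finset ℕ → ℕ∞) (hF : ∀ K ∈ compsL M B, F K = F' K.toFinset) :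
    ((compsL M B).map F).sum = ∑ K ∈ comps G B.toFinset, F' K := by
  classical
  set R := B.filter (fun v => (reachL M B [v]).headD 0 == v) with hR
  have hRB : ∀ v ∈ R, v ∈ B := fun v hv => (List.mem_filter.1 hv).1
  have hRN : R.Nodup := hB.filter _
  have h1 : (compsL M B).map F = R.map (fun v => F' (comp G B.toFinset v)) := by
    have : compsL M B = R.map (fun v => reachL M B [v]) := rfl
    rw [this, List.map_map]
    apply List.map_congr_left
    intro v hv
    simp only [Function.comp]
    rw [hF _ (by rw [this]; exact List.mem_map.2 ⟨v, hv, rfl⟩), reachL_toFinset hM (hRB v hv)]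
  rw [h1, ← List.sum_toFinset _ hRN]
  have h2 : comps G B.toFinset = R.toFinset.image (comp G B.toFinset) := by
    ext K
    unfold comps
    rw [Finset.mem_image, Finset.mem_image]
    constructor
    · rintro ⟨u, hu, rfl⟩
      rw [List.mem_toFinset] at hu
      have hne : reachL M B [u] ≠ [] := by
        intro h
        have : u ∈ reachL M B [u] := by
          rw [mem_reachL hM (by simpa using hu)]
          exact ⟨hu, u, by simp, RI.refl⟩
        rw [h] at this
        simp at this
      set v := (reachL M B [u]).headD 0 with hv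
      have hvm : v ∈ reachL M B [u] := headD_mem hne
      have hvc : v ∈ comp G B.toFinset u := by
        rw [← reachL_toFinset hM hu]; exact List.mem_toFinset.2 hvm
      have hvB : v ∈ B := ((mem_reachL hM (by simpa using hu)).1 hvm).1
      have hce := comp_eq (List.mem_toFinset.2 hu) hvc
      refine ⟨v, ?_, hce⟩
      rw [List.mem_toFinset, hR, List.mem_filter]
      refine ⟨hvB, ?_⟩
      rw [reachL_eq hM hvB hu hce, ← hv]
      simp
    · rintro ⟨v, hv, rfl⟩
      exact ⟨v, List.mem_toFinset.2 (hRB v (List.mem_toFinset.1 hv)), rfl⟩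
  rw [h2, Finset.sum_image]
  intro v hv v' hv' he
  have hv := List.mem_toFinset.1 (Finset.mem_coe.1 hv)
  have hv' := List.mem_toFinset.1 (Finset.mem_coe.1 hv')
  have h3 := reachL_eq hM (hRB v hv) (hRB v' hv') he
  rw [hR, List.mem_filter] at hv hv'
  have e1 : (reachL M B [v]).headD 0 = v := by simpa using hv.2
  have e2 : (reachL M B [v']).headD 0 = v' := by simpa using hv'.2
  rw [← e1, ← e2, h3]

theorem mem_compsL {B K : List ℕ} (h : K ∈ compsL M B) :
    ∃ v ∈ B, K = reachL M B [v] := by
  unfold compsL at h
  obtain ⟨v, hv, rfl⟩ := List.mem_map.1 h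
  exact ⟨v, (List.mem_filter.1 hv).1, rfl⟩

/-- terminals as a finset -/
def termF (c : Ctx) : Finset ℕ :=
  (Finset.range c.1.length).filter (fun u => c.2.1.getD u false = true)

/-- weights -/
def wtF (c : Ctx) : ℕ → ℕ := fun v => bval (c.2.2.getD v [])

theorem mem_termF {c : Ctx} {u : ℕ} :
    u ∈ termF c ↔ u < c.1.length ∧ c.2.1.getD u false = true := by
  simp [termF]

theorem unionL_toFinset {c : Ctx} {P S : List ℕ} (hP : ∀ x ∈ P, x < c.1.length)
    (hS : ∀ x ∈ S, x < c.1.length) : (unionL c P S).toFinset = P.toFinset ∪ S.toFinset := by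
  ext x
  simp only [unionL, List.mem_toFinset, List.mem_filter, List.mem_range, Finset.mem_union,
    Bool.or_eq_true, memb_iff]
  constructor
  · exact fun h => h.2
  · rintro (h | h)
    · exact ⟨hP x h, Or.inl h⟩
    · exact ⟨hS x h, Or.inr h⟩

theorem mem_unionL_lt {c : Ctx} {P S : List ℕ} {x : ℕ} (h : x ∈ unionL c P S) :
    x < c.1.length := by
  simp only [unionL, List.mem_filter, List.mem_range] at h
  exact h.1

theorem bval_costL {c : Ctx} {P S : List ℕ} (hS : ∀ x ∈ S, x < c.1.length) :
    bval (costL c P S) = ∑ v ∈ (S.toFinset \ P.toFinset) \ termF c, wtF c v := by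
  unfold costL
  rw [bval_bsum, List.map_map]
  set L := (List.range c.1.length).filter (fun x => memb x S && !(memb x P) &&
    !(c.2.1.getD x false)) with hL
  have hLN : L.Nodup := (List.nodup_range).filter _
  have hLe : L.toFinset = (S.toFinset \ P.toFinset) \ termF c := by
    ext x
    simp only [hL, List.mem_toFinset, List.mem_filter, List.mem_range, Bool.and_eq_true,
      memb_iff, Bool.not_eq_true', Finset.mem_sdiff, mem_termF, not_and]
    constructor
    · rintro ⟨h1, ⟨h2, h3⟩, h4⟩
      refine ⟨⟨h2, ?_⟩, fun _ => by rw [h4]; simp⟩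
      intro h
      rw [(memb_iff (x := x) (l := P)).2 h] at h3
      simp at h3
    · rintro ⟨⟨h1, h2⟩, h3⟩
      refine ⟨hS x h1, ⟨h1, ?_⟩, by simpa using h3 (hS x h1)⟩
      rw [← Bool.not_eq_true, memb_iff]
      exact h2
  rw [← hLe, List.sum_toFinset _ hLN]
  rfl

theorem optL_spec (s t : ℕ) (c : Ctx) (hM : ∀ i j, adjL c.1 i j = true ↔ G.Adj i j) :
    ∀ (d : ℕ) (P K : List ℕ), (∀ x ∈ P, x < c.1.length) → (∀ x ∈ K, x < c.1.length) →
      K.Nodup →
      oval (optL s t d c P K) = optF G (Finset.range c.1.length) (termF c) (wtF c)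
        (tuples (List.range c.1.length) s) (tuples (List.range c.1.length) t) d
        P.toFinset K.toFinset := by
  classical
  have hany : ∀ K : List ℕ, (∀ x ∈ K, x < c.1.length) →
      (K.any (fun u => c.2.1.getD u false) = true ↔ ¬ (termF c ∩ K.toFinset = ∅)) := by
    intro K hK
    rw [List.any_eq_true, ← Ne, ← Finset.nonempty_iff_ne_empty]
    constructor
    · rintro ⟨x, hx, h⟩
      exact ⟨x, Finset.mem_inter.2 ⟨mem_termF.2 ⟨hK x hx, h⟩, List.mem_toFinset.2 hx⟩⟩
    · rintro ⟨x, hx⟩
      rw [Finset.mem_inter, mem_termF, List.mem_toFinset] at hx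
      exact ⟨x, hx.2, hx.1.2⟩
  intro d
  induction d with
  | zero =>
    intro P K _ hK _
    by_cases h : K.any (fun u => c.2.1.getD u false) = true
    · have h' := (hany K hK).1 h
      simp only [optL, optF, if_pos h, if_neg h', oval_none]
    · have h' : termF c ∩ K.toFinset = ∅ := by
        by_contra hcon
        exact h ((hany K hK).2 hcon)
      simp only [optL, optF, if_neg h, if_pos h', oval_some, bval_nil, Nat.cast_zero]
  | succ d ih =>
    intro P K hP hK hKN
    by_cases h : K.any (fun u => c.2.1.getD u false) = true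
    · have h' := (hany K hK).1 h
      simp only [optL, optF, if_pos h, if_neg h', oval_ominL]
      congr 1
      rw [List.map_flatMap]
      apply List.flatMap_congr
      intro S hS
      rw [mem_tuples] at hS
      have hSlt : ∀ x ∈ S, x < c.1.length := fun x hx => List.mem_range.1 (hS.2 x hx)
      rw [List.map_map]
      apply List.map_congr_left
      intro Q hQ
      simp only [Function.comp]
      have hUn := unionL_toFinset hP hSlt
      have hgood : goodL c P K S Q = true ↔
          ((∀ s ∈ S, ∃ p ∈ P.toFinset, RI G (P.toFinset ∪ S.toFinset) p s) ∧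
            (∀ u ∈ K.toFinset, u ∈ termF c → u ∈ nb G (Finset.range c.1.length) Q.toFinset →
              u ∈ nb G (Finset.range c.1.length) (P.toFinset ∪ S.toFinset))) := by
        unfold goodL
        rw [Bool.and_eq_true, List.all_eq_true, List.all_eq_true]
        apply and_congr
        · apply forall₂_congr
          intro x hx
          rw [memb_iff, mem_reachL hM (by
            intro y hy
            rw [← List.mem_toFinset, hUn]
            exact Finset.mem_union_left _ (List.mem_toFinset.2 hy)), hUn]
          constructor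
          · rintro ⟨_, a, ha, h1⟩
            exact ⟨a, List.mem_toFinset.2 ha, h1⟩
          · rintro ⟨a, ha, h1⟩
            refine ⟨?_, a, List.mem_toFinset.1 ha, h1⟩
            rw [← List.mem_toFinset, hUn]
            exact Finset.mem_union_right _ (List.mem_toFinset.2 hx)
        · constructor
          · intro h1 u hu hut huQ
            rw [List.mem_toFinset] at hu
            have h2 := h1 u hu
            rw [mem_termF] at hut
            rw [← mem_nbL hM] at huQ
            rw [Bool.or_eq_true, Bool.or_eq_true, memb_iff, mem_nbL hM, hUn] at h2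
            rcases h2 with (h2 | h2) | h2
            · rw [hut.2] at h2; simp at h2
            · rw [(memb_iff (x := u) (l := nbL c.1 Q)).2 huQ] at h2; simp at h2
            · exact h2
          · intro h1 u hu
            rw [Bool.or_eq_true, Bool.or_eq_true, memb_iff, mem_nbL hM, hUn]
            by_cases hut : c.2.1.getD u false = true
            · by_cases huQ : u ∈ nbL c.1 Q
              · right
                exact h1 u (List.mem_toFinset.2 hu) (mem_termF.2 ⟨hK u hu, hut⟩)
                  ((mem_nbL hM).1 huQ)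
              · left; right
                rw [Bool.not_eq_true', ← Bool.not_eq_true, memb_iff]
                exact huQ
            · left; left
              simpa using hut
      have hrest : (restL c P K S Q).toFinset =
          (K.toFinset \ nb G (Finset.range c.1.length) Q.toFinset) \
            nb G (Finset.range c.1.length) (P.toFinset ∪ S.toFinset) := by
        ext x
        have e1 : (!(memb x (nbL c.1 Q))) = true ↔
            x ∉ nb G (Finset.range c.1.length) Q.toFinset := by
          rw [Bool.not_eq_true', ← Bool.not_eq_true, memb_iff, mem_nbL hM]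
        have e2 : (!(memb x (nbL c.1 (unionL c P S)))) = true ↔
            x ∉ nb G (Finset.range c.1.length) (P.toFinset ∪ S.toFinset) := by
          rw [Bool.not_eq_true', ← Bool.not_eq_true, memb_iff, mem_nbL hM, hUn]
        unfold restL
        rw [List.mem_toFinset, List.mem_filter, Finset.mem_sdiff, Finset.mem_sdiff,
          List.mem_toFinset, Bool.and_eq_true, e1, e2]
        tauto
      by_cases hg : goodL c P K S Q = true
      · rw [if_pos hg, if_pos (hgood.1 hg), oval_oadd, oval_some, bval_costL hSlt, oval_osum,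
          List.map_map, ← hrest]
        congr 1
        apply sum_compsL hM (hKN.filter _)
        intro K' hK'
        obtain ⟨v, hv, rfl⟩ := mem_compsL hK'
        simp only [Function.comp]
        rw [ih (unionL c P S) _ (fun x hx => mem_unionL_lt hx) ?_ ?_, hUn]
        · intro x hx
          have := ((mem_reachL hM (by simpa using hv)).1 hx).1
          exact hK x (List.mem_filter.1 this).1
        · rw [reachL_canon hM hv]
          exact (hKN.filter _).filter _
      · rw [if_neg hg, if_neg (fun h1 => hg (hgood.2 h1)), oval_none]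
    · have h' : termF c ∩ K.toFinset = ∅ := by
        by_contra hcon
        exact h ((hany K hK).2 hcon)
      simp only [optL, optF, if_neg h, if_pos h', oval_some, bval_nil, Nat.cast_zero]

end spec

end Pool.Agent.H.MP_5be563_lc.VST
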