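import Pool.Agent.H.MP_5be563_lc.VST.Defs
import Pool.Agent.H.MP_5be563_lc.VST.Spec

/-!
Parsing input strings in polynomial time.
-/

set_option linter.unusedSectionVars false

namespace Pool.Agent.H.MP_5be563_lc.PT

section

variable {α β : Type} [Enc α] [Enc β]

@[fun_prop]
theorem Poly.takeWhile {f : α → β → Bool} {l : α → List β}
    (hf : Poly (fun p : α × β => f p.1 p.2)) (hl : Poly l) :
    Poly (fun a => (l a).takeWhile (f a)) := by
  have e : ∀ (g : β → Bool) (l : List β),
      l.foldr (fun b s => bif g b then b :: s else []) [] = l.takeWhile g := by
    intro g l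
    induction l with
    | nil => simp
    | cons x l ih => cases h : g x <;> simp [h, ih]
  have key := Poly.foldr (f := fun p : α × List β × β => bif f p.1 p.2.2 then p.2.2 :: p.2.1
      else []) (l := l)
    (s0 := fun _ => []) (B := fun a => sz (l a))
    (Poly.cond (hf.comp (g := fun p : α × List β × β => (p.1, p.2.2)) (by fun_prop))
      (by fun_prop) (by fun_prop)) hl (by fun_prop) hl.sz_le (by
      intro a l₁ l₂ h
      simp only
      rw [e, h]
      exact sz_sublist_le ((List.takeWhile_sublist _).trans (List.sublist_append_right _ _)))
  simpa [e] using key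

end

end Pool.Agent.H.MP_5be563_lc.PT

namespace Pool.Agent.H.MP_5be563_lc.VST

open PT

/-! ### numerals -/

/-- one step of the numeral parser; state: marker read?, current numeral reversed, finished
numerals reversed -/
def pstep (s : Bool × List Bool × List (List Bool)) (b : Bool) :
    Bool × List Bool × List (List Bool) :=
  bif s.1 then (false, b :: s.2.1, s.2.2)
  else (bif b then (true, s.2.1, s.2.2) else (false, [], s.2.1.reverse :: s.2.2))

/-- parse a concatenation of self-delimiting strings -/
def parseNums (l : List Bool) : List (List Bool) :=
  (l.foldl pstep (false, [], [])).2.2.reverse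

theorem foldl_pstep_bits (x : List Bool) : ∀ (cur : List Bool) (fin : List (List Bool)),
    (x.flatMap (fun b => [true, b])).foldl pstep (false, cur, fin) =
      (false, x.reverse ++ cur, fin) := by
  induction x with
  | nil => intro cur fin; rfl
  | cons b x ih =>
    intro cur fin
    rw [List.flatMap_cons, List.foldl_append]
    have : [true, b].foldl pstep (false, cur, fin) = (false, b :: cur, fin) := rfl
    rw [this, ih]
    simp

theorem foldl_pstep_delim (x : List Bool) (fin : List (List Bool)) :
    (delim x).foldl pstep (false, [], fin) = (false, [], x :: fin) := by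
  unfold delim
  rw [List.foldl_append, foldl_pstep_bits]
  simp [pstep]

theorem foldl_pstep_list (ns : List (List Bool)) : ∀ (fin : List (List Bool)),
    (ns.flatMap delim).foldl pstep (false, [], fin) = (false, [], ns.reverse ++ fin) := by
  induction ns with
  | nil => intro fin; rfl
  | cons x ns ih =>
    intro fin
    rw [List.flatMap_cons, List.foldl_append, foldl_pstep_delim, ih]
    simp

theorem parseNums_flatMap (ns : List (List Bool)) : parseNums (ns.flatMap delim) = ns := by
  unfold parseNums
  rw [foldl_pstep_list]
  simp

theorem pstep_size (l : List Bool) : ∀ (s : Bool × List Bool × List (List Bool)),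
    sz (l.foldl pstep s).2.1 + sz (l.foldl pstep s).2.2 ≤ sz s.2.1 + sz s.2.2 + 4 * l.length := by
  induction l with
  | nil => intro s; simp
  | cons b l ih =>
    intro s
    rw [List.foldl_cons]
    refine (ih _).trans ?_
    have : sz (pstep s b).2.1 + sz (pstep s b).2.2 ≤ sz s.2.1 + sz s.2.2 + 4 := by
      have hb := sz_bool_le b
      unfold pstep
      cases s.1 <;> cases b <;> simp [sz_reverse] <;> omega
    simp only [List.length_cons]
    omega

@[fun_prop]
theorem Poly.parseNums {α : Type} [Enc α] {l : α → List Bool} (hl : PT.Poly l) :
    PT.Poly (fun a => parseNums (l a)) := by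
  have h1 : PT.Poly (fun p : α × (Bool × List Bool × List (List Bool)) × Bool =>
      pstep p.2.1 p.2.2) := by
    unfold pstep
    fun_prop
  have := PT.Poly.foldl (f := fun p : α × (Bool × List Bool × List (List Bool)) × Bool =>
      pstep p.2.1 p.2.2) (l := l) (s0 := fun _ => (false, [], []))
    (B := fun a => 4 * sz (l a) + 10) h1 hl (by fun_prop)
    (((PBdd.const 4).mul hl.sz_le).add (PBdd.const 10)) (by
      intro a l₁ l₂ h
      simp only
      have h2 := pstep_size l₁ (false, [], [])
      set s := l₁.foldl pstep (false, [], []) with hs
      have e : sz s = sz s.1 + (sz s.2.1 + sz s.2.2 + 1) + 1 := rfl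
      rw [e]
      have h3 := sz_bool_le s.1
      have h4 : l₁.length < sz (l a) := by
        have := length_lt_sz (l a)
        rw [h] at this ⊢
        simp at this
        omega
      simp only [sz_lnil] at h2
      omega)
  have h5 : PT.Poly (fun a => ((l a).foldl pstep (false, [], [])).2.2.reverse) := by
    fun_prop
  exact h5

/-! ### slicing -/

theorem slice (n : ℕ) : ∀ (L : List (List Bool)) (i : ℕ) (rest : List Bool),
    (∀ r ∈ L, r.length = n) → i < L.length →
      ((L.flatten ++ rest).drop (i * n)).take n = L.getD i [] := by
  intro L
  induction L with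
  | nil => intro i rest _ hi; simp at hi
  | cons r L ih =>
    intro i rest hL hi
    have hr : r.length = n := hL r (by simp)
    cases i with
    | zero =>
      simp only [Nat.zero_mul, List.drop_zero, List.flatten_cons, List.append_assoc,
        List.getD_cons_zero]
      rw [← hr, List.take_left']
      rfl
    | succ i =>
      simp only [List.flatten_cons, List.append_assoc, List.getD_cons_succ]
      rw [← ih i rest (fun r' h => hL r' (by simp [h])) (by simpa using hi)]
      have : (i + 1) * n = r.length + i * n := by rw [hr]; ring
      rw [this, ← List.drop_drop, List.drop_left]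

/-- parsed data: adjacency matrix, terminal flags, numerals -/
abbrev Dat := List (List Bool) × List Bool × List (List Bool)

/-- number of vertices -/
def pn (raw : List Bool) : ℕ := (raw.takeWhile (fun b => b)).length

/-- The parser. -/
def parse (raw : List Bool) : Dat :=
  ((List.range (pn raw)).map
    (fun i => ((raw.drop (pn raw + 1)).drop (i * pn raw)).take (pn raw)),
   ((raw.drop (pn raw + 1)).drop (pn raw * pn raw)).take (pn raw),
   parseNums (((raw.drop (pn raw + 1)).drop (pn raw * pn raw)).drop (pn raw)))

@[fun_prop]
theorem Poly.pn {α : Type} [Enc α] {l : α → List Bool} (hl : PT.Poly l) :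
    PT.Poly (fun a => pn (l a)) := by
  unfold VST.pn
  fun_prop

@[fun_prop]
theorem Poly.parse {α : Type} [Enc α] {l : α → List Bool} (hl : PT.Poly l) :
    PT.Poly (fun a => parse (l a)) := by
  unfold VST.parse
  fun_prop

open Classical in
/-- the intended result of parsing -/
noncomputable def VSTInstance.dat (x : VSTInstance) : Dat :=
  ((List.finRange x.n).map (fun i => (List.finRange x.n).map (fun j => decide (x.G.Adj i j))),
   (List.finRange x.n).map (fun i => decide (i ∈ x.U)),
   (List.finRange x.n).flatMap (fun i =>
     [decide (x.w i < 0) :: Nat.bits (x.w i).num.natAbs, Nat.bits (x.w i).den]) ++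
   [decide (x.k < 0) :: Nat.bits x.k.num.natAbs, Nat.bits x.k.den])

theorem parse_encode (x : VSTInstance) : parse x.encode = x.dat := by
  classical
  set A := (List.finRange x.n).map
    (fun i => (List.finRange x.n).map (fun j => decide (x.G.Adj i j))) with hA
  set T := (List.finRange x.n).map (fun i => decide (i ∈ x.U)) with hT
  set N := (List.finRange x.n).flatMap (fun i =>
     [decide (x.w i < 0) :: Nat.bits (x.w i).num.natAbs, Nat.bits (x.w i).den]) ++
   [decide (x.k < 0) :: Nat.bits x.k.num.natAbs, Nat.bits x.k.den] with hN
  have hTl : T.length = x.n := by simp [hT]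
  have hAl : A.length = x.n := by simp [hA]
  have hAr : ∀ r ∈ A, r.length = x.n := by
    intro r hr
    rw [hA, List.mem_map] at hr
    obtain ⟨i, _, rfl⟩ := hr
    simp
  have hAfl : A.flatten.length = x.n * x.n := by
    rw [List.length_flatten]
    have : A.map List.length = List.replicate x.n x.n := by
      rw [List.eq_replicate_iff]
      refine ⟨by simp [hAl], ?_⟩
      intro b hb
      obtain ⟨r, hr, rfl⟩ := List.mem_map.1 hb
      exact hAr r hr
    rw [this]; simp
  have henc : x.encode = List.replicate x.n true ++ (false :: (A.flatten ++
      (T ++ N.flatMap delim))) := by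
    unfold VSTInstance.encode
    rw [← hT, List.flatMap_def, ← hA]
    have hN' : N.flatMap delim = (List.finRange x.n).flatMap (fun i => encRat (x.w i)) ++
        encRat x.k := by
      rw [hN, List.flatMap_append, List.flatMap_assoc]
      congr 1
      · apply List.flatMap_congr
        intro i _
        simp [encRat]
      · simp [encRat]
    rw [hN']
    simp
  have hpn : pn x.encode = x.n := by
    unfold pn
    rw [henc, List.takeWhile_append_of_pos (by simp)]
    simp
  have hdrop : x.encode.drop (x.n + 1) = A.flatten ++ (T ++ N.flatMap delim) := by
    rw [henc, ← List.drop_drop]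
    have : (List.replicate x.n true ++ (false :: (A.flatten ++ (T ++ N.flatMap delim)))).drop
        x.n = false :: (A.flatten ++ (T ++ N.flatMap delim)) := by
      have h := List.drop_left (l₁ := List.replicate x.n true)
        (l₂ := false :: (A.flatten ++ (T ++ N.flatMap delim)))
      simpa using h
    rw [this]; simp
  have hdrop2 : (A.flatten ++ (T ++ N.flatMap delim)).drop (x.n * x.n) =
      T ++ N.flatMap delim := by
    rw [← hAfl, List.drop_left]
  unfold parse
  rw [hpn, hdrop, hdrop2]
  have e1 : (T ++ N.flatMap delim).take x.n = T := by rw [← hTl, List.take_left']; rfl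
  have e2 : (T ++ N.flatMap delim).drop x.n = N.flatMap delim := by
    rw [← hTl, List.drop_left]
  rw [e1, e2, parseNums_flatMap]
  have e3 : (List.range x.n).map (fun i =>
      ((A.flatten ++ (T ++ N.flatMap delim)).drop (i * x.n)).take x.n) = A := by
    apply List.ext_getElem
    · simp [hAl]
    · intro i h1 h2
      rw [List.getElem_map, List.getElem_range, slice x.n A i _ hAr h2]
      simp [List.getD_eq_getElem?_getD, h2]
  rw [e3]
  rfl

end Pool.Agent.H.MP_5be563_lc.VST
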