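import Mathlib

/-!
Induced paths, distances inside a set, and the key lemma on longest induced paths in connected
claw-free graphs.
-/

namespace Pool.Agent.H.MP_5be563_lc.VST

variable {V : Type*}

/-- The first `m` values of `p` form an induced path. -/
def IndP (G : SimpleGraph V) (p : ℕ → V) (m : ℕ) : Prop :=
  ∀ i j, i < j → j < m → p i ≠ p j ∧ (G.Adj (p i) (p j) ↔ j = i + 1)

theorem IndP.mono {G : SimpleGraph V} {p : ℕ → V} {m n : ℕ} (h : IndP G p m) (hn : n ≤ m) :
    IndP G p n := fun i j hij hj => h i j hij (by omega)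

theorem IndP.ne {G : SimpleGraph V} {p : ℕ → V} {m : ℕ} (h : IndP G p m) {i j : ℕ}
    (hij : i ≠ j) (hi : i < m) (hj : j < m) : p i ≠ p j := by
  rcases Nat.lt_or_gt_of_ne hij with h1 | h1
  · exact (h i j h1 hj).1
  · exact ((h j i h1 hi).1).symm

theorem IndP.adj_iff {G : SimpleGraph V} {p : ℕ → V} {m : ℕ} (h : IndP G p m) {i j : ℕ}
    (hi : i < m) (hj : j < m) : G.Adj (p i) (p j) ↔ (j = i + 1 ∨ i = j + 1) := by
  rcases Nat.lt_trichotomy i j with h1 | h1 | h1
  · rw [(h i j h1 hj).2]; omega
  · subst h1; simp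
  · rw [G.adj_comm, (h j i h1 hi).2]; omega

theorem IndP.rev {G : SimpleGraph V} {p : ℕ → V} {m : ℕ} (h : IndP G p m) :
    IndP G (fun i => p (m - 1 - i)) m := by
  intro i j hij hj
  have h1 := h (m - 1 - j) (m - 1 - i) (by omega) (by omega)
  refine ⟨h1.1.symm, ?_⟩
  simp only
  rw [G.adj_comm, h1.2]
  omega

theorem IndP.shift {G : SimpleGraph V} {p : ℕ → V} {m : ℕ} (h : IndP G p m) (s : ℕ) :
    IndP G (fun i => p (i + s)) (m - s) := by
  intro i j hij hj
  have h1 := h (i + s) (j + s) (by omega) (by omega)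
  refine ⟨h1.1, ?_⟩
  simp only
  rw [h1.2]
  omega

/-- concatenation of sequences -/
def cat (p : ℕ → V) (m : ℕ) (q : ℕ → V) : ℕ → V := fun i => if i < m then p i else q (i - m)

theorem cat_lt {p q : ℕ → V} {m i : ℕ} (h : i < m) : cat p m q i = p i := by simp [cat, h]
theorem cat_ge {p q : ℕ → V} {m i : ℕ} (h : m ≤ i) : cat p m q i = q (i - m) := by
  simp [cat, Nat.not_lt.2 h]

theorem IndP.cat {G : SimpleGraph V} {p q : ℕ → V} {m n : ℕ} (hp : IndP G p m)
    (hq : IndP G q n)
    (h : ∀ i j, i < m → j < n → p i ≠ q j ∧ (G.Adj (p i) (q j) ↔ (i + 1 = m ∧ j = 0))) :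
    IndP G (cat p m q) (m + n) := by
  intro i j hij hj
  by_cases hi : i < m
  · by_cases hj' : j < m
    · rw [cat_lt hi, cat_lt hj']
      exact hp i j hij hj'
    · rw [cat_lt hi, cat_ge (by omega)]
      have := h i (j - m) hi (by omega)
      refine ⟨this.1, this.2.trans ?_⟩
      omega
  · rw [cat_ge (by omega), cat_ge (by omega)]
    have := hq (i - m) (j - m) (by omega) (by omega)
    refine ⟨this.1, this.2.trans ?_⟩
    omega

/-- Claw-freeness, in elementary terms. -/
def ClawFree (G : SimpleGraph V) : Prop :=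
  ∀ x a b c, G.Adj x a → G.Adj x b → G.Adj x c → a ≠ b → a ≠ c → b ≠ c →
    G.Adj a b ∨ G.Adj a c ∨ G.Adj b c

/-! ### Distances inside a set -/

/-- `v` is the end of a walk of length `n` starting in `A`, all of whose further vertices lie
in `B`. -/
def RN (G : SimpleGraph V) (A B : V → Prop) : ℕ → V → Prop
  | 0, v => A v
  | n + 1, v => B v ∧ ∃ u, RN G A B n u ∧ G.Adj u v

/-- `v` is at distance exactly `n` of `A` inside `B`. -/
def Ex (G : SimpleGraph V) (A B : V → Prop) (n : ℕ) (v : V) : Prop :=
  RN G A B n v ∧ ∀ m, m < n → ¬ RN G A B m v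

theorem Ex.exists_of_RN {G : SimpleGraph V} {A B : V → Prop} {n : ℕ} {v : V}
    (h : RN G A B n v) : ∃ m, m ≤ n ∧ Ex G A B m v := by
  classical
  have h' : ∃ m, RN G A B m v := ⟨n, h⟩
  exact ⟨Nat.find h', Nat.find_le h, Nat.find_spec h', fun m hm => Nat.find_min h' hm⟩

theorem Ex.pred {G : SimpleGraph V} {A B : V → Prop} {n : ℕ} {v : V}
    (h : Ex G A B (n + 1) v) : ∃ u, Ex G A B n u ∧ G.Adj u v := by
  obtain ⟨⟨hB, u, hu, huv⟩, hmin⟩ := h
  refine ⟨u, ⟨hu, fun m hm hm' => hmin (m + 1) (by omega) ⟨hB, u, hm', huv⟩⟩, huv⟩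

theorem Ex.path {G : SimpleGraph V} {A B : V → Prop} : ∀ {n : ℕ} {v : V}
    (_ : Ex G A B n v), ∃ x : ℕ → V, x 0 = v ∧ (∀ i, i ≤ n → Ex G A B (n - i) (x i)) ∧
      (∀ i, i < n → G.Adj (x i) (x (i + 1))) := by
  intro n
  induction n with
  | zero =>
    intro v h
    refine ⟨fun _ => v, rfl, ?_, ?_⟩
    · intro i hi; simpa [Nat.le_zero.1 hi] using h
    · intro i hi; omega
  | succ n ih =>
    intro v h
    obtain ⟨u, hu, huv⟩ := h.pred
    obtain ⟨x, hx0, hx1, hx2⟩ := ih hu
    refine ⟨fun i => if i = 0 then v else x (i - 1), by simp, ?_, ?_⟩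
    · intro i hi
      rcases Nat.eq_zero_or_pos i with rfl | h0
      · simpa using h
      · have h1 := hx1 (i - 1) (by omega)
        have e : n - (i - 1) = n + 1 - i := by omega
        rw [e] at h1
        simpa [Nat.pos_iff_ne_zero.1 h0] using h1
    · intro i hi
      rcases Nat.eq_zero_or_pos i with rfl | h0
      · simpa [hx0] using huv.symm
      · have h1 := hx2 (i - 1) (by omega)
        have e : i - 1 + 1 = i := by omega
        rw [e] at h1
        simpa [Nat.pos_iff_ne_zero.1 h0] using h1

theorem Ex.not_adj {G : SimpleGraph V} {A B : V → Prop} {n m : ℕ} {u v : V}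
    (hu : Ex G A B n u) (hv : Ex G A B m v) (h : n + 1 < m) : ¬ G.Adj u v := by
  intro huv
  have hB : B v := by
    cases m with
    | zero => omega
    | succ m => exact hv.1.1
  exact hv.2 (n + 1) h ⟨hB, u, hu.1, huv⟩

theorem Ex.unique {G : SimpleGraph V} {A B : V → Prop} {n m : ℕ} {u : V}
    (hu : Ex G A B n u) (hv : Ex G A B m u) : n = m := by
  rcases Nat.lt_trichotomy n m with h | h | h
  · exact absurd hu.1 (hv.2 n h)
  · exact h
  · exact absurd hv.1 (hu.2 m h)

theorem Ex.indP {G : SimpleGraph V} {A B : V → Prop} {n : ℕ} {x : ℕ → V}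
    (h1 : ∀ i, i ≤ n → Ex G A B (n - i) (x i)) (h2 : ∀ i, i < n → G.Adj (x i) (x (i + 1))) :
    IndP G x (n + 1) := by
  intro i j hij hj
  constructor
  · intro e
    have hi := h1 i (by omega)
    have hj' := h1 j (by omega)
    rw [e] at hi
    have := hi.unique hj'
    omega
  · constructor
    · intro hadj
      by_contra hne
      exact (h1 j (by omega)).not_adj (h1 i (by omega)) (by omega) hadj.symm
    · rintro rfl
      exact h2 i (by omega)

/-! ### The half-path lemma -/

/-- A vertex `x` attached to an inextensible induced path, with a neighbour `y` far from the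
path, sees exactly two consecutive vertices; so at least half of the path can be reached. -/
theorem half_path {G : SimpleGraph V} (hG : ClawFree G) {K : V → Prop} {m : ℕ} {q : ℕ → V}
    (hq : IndP G q m) (hqK : ∀ i, i < m → K (q i))
    (hmax : ∀ p, IndP G p (m + 1) → ∃ i, i < m + 1 ∧ ¬ K (p i))
    {x y : V} (hxK : K x) (hxq : ∀ i, i < m → x ≠ q i) (hxadj : ∃ i, i < m ∧ G.Adj x (q i))
    (hxy : G.Adj x y) (hy : ∀ i, i < m → y ≠ q i ∧ ¬ G.Adj y (q i)) :
    ∃ (a : ℕ → V) (r : ℕ), m ≤ 2 * r ∧ 0 < r ∧ IndP G a r ∧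
      (∀ i, i < r → ∃ j, j < m ∧ a i = q j) ∧ (∀ i, i < r → (G.Adj x (a i) ↔ i = 0)) := by
  classical
  -- the neighbours of x on the path form a clique
  have hclq : ∀ i j, i < m → j < m → i ≠ j → G.Adj x (q i) → G.Adj x (q j) →
      G.Adj (q i) (q j) := by
    intro i j hi hj hij h1 h2
    rcases hG x y (q i) (q j) hxy h1 h2 (hy i hi).1 (hy j hj).1 (hq.ne hij hi hj) with h | h | h
    · exact absurd h (hy i hi).2
    · exact absurd h (hy j hj).2
    · exact h
  -- least neighbour
  have hex : ∃ i, i < m ∧ G.Adj x (q i) := hxadj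
  set i := Nat.find hex with hi
  obtain ⟨him, hxi⟩ := Nat.find_spec hex
  have hmin : ∀ j, j < i → ¬ G.Adj x (q j) := by
    intro j hj hadj
    exact Nat.find_min hex hj ⟨by omega, hadj⟩
  have hcand : ∀ j, j < m → G.Adj x (q j) → j = i ∨ j = i + 1 := by
    intro j hj hadj
    by_cases hji : j = i
    · exact Or.inl hji
    · have h1 := hclq i j him hj (Ne.symm hji) hxi hadj
      rw [hq.adj_iff him hj] at h1
      rcases h1 with h1 | h1
      · exact Or.inr h1
      · exact absurd hadj (hmin j (by omega))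
  by_cases hnext : i + 1 < m ∧ G.Adj x (q (i + 1))
  · obtain ⟨hm1, hx1⟩ := hnext
    by_cases hhalf : m ≤ 2 * (i + 1)
    · refine ⟨fun k => q (i - k), i + 1, hhalf, by omega, ?_, ?_, ?_⟩
      · have := (hq.mono (show i + 1 ≤ m by omega)).rev
        simpa using this
      · intro k hk
        exact ⟨i - k, by omega, rfl⟩
      · intro k hk
        constructor
        · intro hadj
          rcases hcand _ (by omega) hadj with h | h <;> omega
        · rintro rfl
          simpa using hxi
    · refine ⟨fun k => q (k + (i + 1)), m - (i + 1), by omega, by omega, hq.shift _, ?_, ?_⟩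
      · intro k hk
        exact ⟨k + (i + 1), by omega, rfl⟩
      · intro k hk
        constructor
        · intro hadj
          rcases hcand _ (by omega) hadj with h | h <;> omega
        · rintro rfl
          simpa using hx1
  · -- only one neighbour: contradiction
    exfalso
    have honly : ∀ j, j < m → G.Adj x (q j) → j = i := by
      intro j hj hadj
      rcases hcand j hj hadj with h | h
      · exact h
      · subst h
        exact absurd ⟨hj, hadj⟩ hnext
    by_cases hi0 : i = 0
    · -- prepend x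
      have hp : IndP G (fun _ => x) 1 := fun a b hab hb => by omega
      have hc := hp.cat hq (by
        intro a b ha hb
        refine ⟨hxq b hb, ?_⟩
        constructor
        · intro hadj
          have := honly b hb hadj
          omega
        · rintro ⟨_, rfl⟩
          rw [← hi, hi0] at hxi
          exact hxi)
      rw [Nat.add_comm] at hc
      obtain ⟨k, hk, hkK⟩ := hmax _ hc
      apply hkK
      by_cases hk1 : k < 1
      · rw [cat_lt hk1]; exact hxK
      · rw [cat_ge (by omega)]; exact hqK _ (by omega)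
    · by_cases hilast : i + 1 = m
      · -- append x
        have hp : IndP G (fun _ => x) 1 := fun a b hab hb => by omega
        have hc := hq.cat hp (by
          intro a b ha hb
          refine ⟨(hxq a ha).symm, ?_⟩
          constructor
          · intro hadj
            have := honly a ha hadj.symm
            omega
          · rintro ⟨ha', _⟩
            have : a = i := by omega
            rw [this]
            exact hxi.symm)
        obtain ⟨k, hk, hkK⟩ := hmax _ hc
        apply hkK
        by_cases hk1 : k < m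
        · rw [cat_lt hk1]; exact hqK _ hk1
        · rw [cat_ge (by omega)]; exact hxK
      · -- interior: claw at q i
        have hl : i - 1 < m := by omega
        have hr : i + 1 < m := by omega
        have a1 : G.Adj (q i) (q (i - 1)) := (hq.adj_iff him hl).2 (by omega)
        have a2 : G.Adj (q i) (q (i + 1)) := (hq.adj_iff him hr).2 (by omega)
        rcases hG (q i) (q (i - 1)) (q (i + 1)) x a1 a2 hxi.symm
          (hq.ne (by omega) hl hr) (hxq _ hl).symm (hxq _ hr).symm with h | h | h
        · rw [hq.adj_iff hl hr] at h; omega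
        · have := honly _ hl h.symm; omega
        · have := honly _ hr h.symm; omega

/-- In a claw-free graph, let `K` be a set inside which every vertex can be reached from a longest
induced path `q` of `K`. Then no induced path of `K` with the same number of vertices avoids the
closed neighbourhood of `q`. -/
theorem longest_path_dominates {G : SimpleGraph V} (hG : ClawFree G) {K : V → Prop} {m : ℕ}
    {q : ℕ → V} (hm : 0 < m) (hq : IndP G q m) (hqK : ∀ i, i < m → K (q i))
    (hmax : ∀ p, IndP G p (m + 1) → ∃ i, i < m + 1 ∧ ¬ K (p i))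
    (hconn : ∀ v, K v → ∃ n, RN G (fun v => ∃ i, i < m ∧ v = q i) K n v)
    {q' : ℕ → V} (hq' : IndP G q' m) (hqK' : ∀ i, i < m → K (q' i))
    (hanti : ∀ i j, i < m → j < m → q' i ≠ q j ∧ ¬ G.Adj (q' i) (q j)) : False := by
  classical
  set A : V → Prop := fun v => ∃ i, i < m ∧ v = q i with hA
  -- closed neighbourhood of q' inside K
  let N : V → Prop := fun v => K v ∧ ∃ i, i < m ∧ (v = q' i ∨ G.Adj v (q' i))
  have hex : ∃ n v, N v ∧ Ex G A K n v := by
    obtain ⟨n, hn⟩ := hconn (q' 0) (hqK' 0 hm)
    obtain ⟨k, _, hk⟩ := Ex.exists_of_RN hn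
    exact ⟨k, q' 0, ⟨hqK' 0 hm, 0, hm, Or.inl rfl⟩, hk⟩
  obtain ⟨v, hvN, hvE⟩ := Nat.find_spec hex
  set n := Nat.find hex with hn
  have hmin : ∀ k u, N u → Ex G A K k u → n ≤ k := by
    intro k u hu hk
    exact Nat.find_le ⟨u, hu, hk⟩
  -- v is not on q
  have hn0 : n ≠ 0 := by
    intro h0
    rw [h0] at hvE
    obtain ⟨j, hj, rfl⟩ := hvE.1
    obtain ⟨_, i, hi, h | h⟩ := hvN
    · exact (hanti i j hi hj).1 h.symm
    · exact (hanti i j hi hj).2 h.symm
  -- v is not on q'
  have hvq' : ∀ i, i < m → v ≠ q' i := by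
    intro i hi he
    obtain ⟨k, hk⟩ : ∃ k, n = k + 1 := ⟨n - 1, by omega⟩
    rw [hk] at hvE
    obtain ⟨u, hu, huv⟩ := hvE.pred
    have huK : K u := by
      cases k with
      | zero => obtain ⟨j, hj, rfl⟩ := hu.1; exact hqK j hj
      | succ k => exact hu.1.1
    have := hmin k u ⟨huK, i, hi, Or.inr (by rw [← he]; exact huv)⟩ hu
    omega
  obtain ⟨x, hx0, hx1, hx2⟩ := hvE.path
  have hxInd : IndP G x (n + 1) := Ex.indP hx1 hx2
  have hxK : ∀ i, i < n → K (x i) := by
    intro i hi
    have := hx1 i (by omega)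
    obtain ⟨k, hk⟩ : ∃ k, n - i = k + 1 := ⟨n - i - 1, by omega⟩
    rw [hk] at this
    exact this.1.1
  -- the last vertex is on q
  obtain ⟨j0, hj0, hxn⟩ : ∃ j, j < m ∧ x n = q j := by
    have := hx1 n le_rfl
    rw [Nat.sub_self] at this
    exact this.1
  -- vertices x i, i < n, are not on q
  have hxq : ∀ i, i < n → ∀ j, j < m → x i ≠ q j := by
    intro i hi j hj he
    have := (hx1 i (by omega)).2 0 (by omega)
    exact this ⟨j, hj, he⟩
  -- vertices x i, i + 1 < n, are not adjacent to q
  have hxq2 : ∀ i, i + 1 < n → ∀ j, j < m → ¬ G.Adj (x i) (q j) := by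
    intro i hi j hj hadj
    have := (hx1 i (by omega)).2 1 (by omega)
    exact this ⟨hxK i (by omega), q j, ⟨j, hj, rfl⟩, hadj.symm⟩
  -- vertices x i, 1 ≤ i < n, are not in the closed neighbourhood of q'
  have hxq' : ∀ i, 0 < i → i < n → ∀ j, j < m → x i ≠ q' j ∧ ¬ G.Adj (x i) (q' j) := by
    intro i hi0 hi j hj
    constructor
    · intro he
      have := hmin _ _ ⟨hxK i hi, j, hj, Or.inl he⟩ (hx1 i (by omega))
      omega
    · intro hadj
      have := hmin _ _ ⟨hxK i hi, j, hj, Or.inr hadj⟩ (hx1 i (by omega))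
      omega
  have hxq0 : ∀ j, j < m → x 0 ≠ q' j := by
    intro j hj; rw [hx0]; exact hvq' j hj
  have hx0adj : ∃ i, i < m ∧ G.Adj (x 0) (q' i) := by
    obtain ⟨_, i, hi, h | h⟩ := hvN
    · exact absurd h (hvq' i hi)
    · exact ⟨i, hi, by rw [hx0]; exact h⟩
  -- half path of q'
  have hmax' := hmax
  obtain ⟨a, r, hr, hr0, haInd, haq, hadja⟩ := half_path hG hq' hqK' hmax
    (x := x 0) (y := x 1) (hxK 0 (by omega)) hxq0 hx0adj (hx2 0 (by omega)) (by
      intro i hi
      by_cases h1 : 1 < n
      · exact hxq' 1 (by omega) h1 i hi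
      · have : n = 1 := by omega
        rw [this] at hxn
        rw [hxn]
        exact ⟨(hanti i j0 hi hj0).1.symm, fun h => (hanti i j0 hi hj0).2 h.symm⟩)
  -- half path of q
  obtain ⟨i0, hi0, hx0i0⟩ := hx0adj
  obtain ⟨b, s, hs, hs0, hbInd, hbq, hadjb⟩ := half_path hG hq hqK hmax
    (x := x (n - 1)) (y := if n = 1 then q' i0 else x (n - 2)) (hxK (n - 1) (by omega))
    (hxq (n - 1) (by omega)) ⟨j0, hj0, by
      have := hx2 (n - 1) (by omega)
      rwa [show n - 1 + 1 = n by omega, hxn] at this⟩ (by
      by_cases h1 : n = 1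
      · simp only [h1, if_true]
        exact hx0i0
      · simp only [h1, if_false]
        have := hx2 (n - 2) (by omega)
        rw [show n - 2 + 1 = n - 1 by omega] at this
        exact this.symm) (by
      intro i hi
      by_cases h1 : n = 1
      · simp only [h1, if_true]
        exact hanti i0 i hi0 hi
      · simp only [h1, if_false]
        exact ⟨hxq (n - 2) (by omega) i hi, hxq2 (n - 2) (by omega) i hi⟩)
  -- the concatenation
  have hxn' : IndP G x n := hxInd.mono (by omega)
  have h1 := haInd.rev.cat hxn' (by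
    intro i j hi hj
    obtain ⟨k, hk, hak⟩ := haq (r - 1 - i) (by omega)
    by_cases hj0' : j = 0
    · subst hj0'
      refine ⟨by rw [hak]; exact (hxq0 k hk).symm, ?_⟩
      rw [G.adj_comm, hadja _ (by omega)]
      omega
    · have := hxq' j (by omega) hj k hk
      refine ⟨by rw [hak]; exact this.1.symm, ?_⟩
      constructor
      · intro h
        rw [hak] at h
        exact absurd h.symm this.2
      · rintro ⟨_, h⟩
        exact absurd h hj0')
  have h2 := h1.cat hbInd (by
    intro i j hi hj
    obtain ⟨k, hk, hbk⟩ := hbq j hj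
    by_cases hir : i < r
    · rw [cat_lt hir]
      obtain ⟨l, hl, hal⟩ := haq (r - 1 - i) (by omega)
      rw [hal, hbk]
      have := hanti l k hl hk
      refine ⟨this.1, ?_⟩
      constructor
      · intro h; exact absurd h this.2
      · rintro ⟨h, _⟩; omega
    · rw [cat_ge (by omega)]
      by_cases hlast : i - r = n - 1
      · rw [hlast]
        refine ⟨by rw [hbk]; exact hxq _ (by omega) k hk, ?_⟩
        rw [hadjb j hj]
        omega
      · refine ⟨by rw [hbk]; exact hxq _ (by omega) k hk, ?_⟩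
        constructor
        · intro h
          rw [hbk] at h
          exact absurd h (hxq2 (i - r) (by omega) k hk)
        · rintro ⟨h, _⟩; omega)
  obtain ⟨k, hk, hkK⟩ := hmax _ (h2.mono (show m + 1 ≤ r + n + s by omega))
  apply hkK
  by_cases hk1 : k < r + n
  · rw [cat_lt hk1]
    by_cases hk2 : k < r
    · rw [cat_lt hk2]
      obtain ⟨l, hl, hal⟩ := haq (r - 1 - k) (by omega)
      rw [hal]
      exact hqK' l hl
    · rw [cat_ge (by omega)]
      exact hxK _ (by omega)
  · rw [cat_ge (by omega)]
    obtain ⟨l, hl, hbl⟩ := hbq (k - (r + n)) (by omega)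
    rw [hbl]
    exact hqK l hl

end Pool.Agent.H.MP_5be563_lc.VST
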